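import Mathlib

/-!
# Excited random walks in random cookie environments: definitions
-/

namespace Pool.Agent.Work.MP_204ba2_pr

open MeasureTheory ProbabilityTheory Filter
open scoped ENNReal

/-- A cookie environment: `ω x i ∈ [0,1]` is the `(i+1)`-st cookie at the site `x ∈ ℤ`
(cookies are numbered from `0` here). -/
abbrev Env := ℤ → ℕ → unitInterval

/-- Number of times `i < n` at which the path `x` was at the site it occupies at time `n`.
So at time `n` the path makes its visit number `visits x n + 1` to the site `x n`. -/
def visits (x : ℕ → ℤ) (n : ℕ) : ℕ := ((Finset.range n).filter (fun i => x i = x n)).card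

/-- (IID): the stacks `ω x`, `x ∈ ℤ`, are independent and identically distributed under `P`. -/
def StacksIID (P : Measure Env) : Prop :=
  iIndepFun (fun (x : ℤ) (ω : Env) => ω x) P ∧
    ∀ x : ℤ, IdentDistrib (fun ω : Env => ω x) (fun ω : Env => ω 0) P P

/-- (WEL): for every site `x`, with positive probability all cookies at `x` are `> 0`, and with
positive probability all cookies at `x` are `< 1`. -/
def WeaklyElliptic (P : Measure Env) : Prop :=
  ∀ x : ℤ, 0 < P {ω | ∀ n, 0 < ω x n} ∧ 0 < P {ω | ∀ n, ω x n < 1}

/-- Expected positive part of the drift stored at the site `0`: `E[∑ (2 ω(0,i) - 1)⁺]`. -/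
noncomputable def posDrift (P : Measure Env) : ℝ≥0∞ :=
  ∫⁻ ω, ∑' i, ENNReal.ofReal (2 * (ω 0 i : ℝ) - 1) ∂P

/-- Expected negative part of the drift stored at the site `0`: `E[∑ (2 ω(0,i) - 1)⁻]`. -/
noncomputable def negDrift (P : Measure Env) : ℝ≥0∞ :=
  ∫⁻ ω, ∑' i, ENNReal.ofReal (1 - 2 * (ω 0 i : ℝ)) ∂P

/-- The `σ`-algebra generated by the environment `ω` and by `X 0, ..., X n`. -/
@[reducible] def past {Ω : Type*} (ω : Ω → Env) (X : ℕ → Ω → ℤ) (n : ℕ) : MeasurableSpace Ω :=
  MeasurableSpace.comap (fun a => (ω a, fun i : Fin (n + 1) => X i a)) inferInstance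

/-- `X` is (under the probability measure `μ`) an excited random walk started at `0` in the random
cookie environment `ω`, whose law is `P`: given the environment and the past up to time `n`, if
the current visit to the current site is the `j`-th one, then the walk steps to the right with
probability the `j`-th cookie of that site, and otherwise to the left. -/
structure IsExcitedWalk {Ω : Type*} [MeasurableSpace Ω] (P : Measure Env) (μ : Measure Ω)
    (ω : Ω → Env) (X : ℕ → Ω → ℤ) : Prop where
  measurable_env : Measurable ω
  measurable_walk : ∀ n, Measurable (X n)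
  law_env : μ.map ω = P
  start : ∀ᵐ a ∂μ, X 0 a = 0
  step : ∀ n, ∀ᵐ a ∂μ, X (n + 1) a = X n a + 1 ∨ X (n + 1) a = X n a - 1
  jump : ∀ n, μ[{a | X (n + 1) a = X n a + 1}.indicator (fun _ => (1 : ℝ)) | past ω X n] =ᵐ[μ]
    fun a => (ω a (X n a) (visits (fun i => X i a) n) : ℝ)

end Pool.Agent.Work.MP_204ba2_pr
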