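import Mathlib
import Pool.Agent.Work.MP_204ba2_pr.Defs

/-!
Deterministic part: a nearest neighbour path on `ℤ` that follows a field of arrows.
-/

namespace Pool.Agent.Work.MP_204ba2_pr

open Finset

/-- `x` starts at `0` and at its `(k+1)`-st visit to `y` it goes right iff `a y k` is true. -/
def Follows (a : ℤ → ℕ → Bool) (x : ℕ → ℤ) : Prop :=
  x 0 = 0 ∧ ∀ n, x (n + 1) = if a (x n) (visits x n) then x n + 1 else x n - 1

/-- local time at `y` before time `n` -/
def lt (x : ℕ → ℤ) (n : ℕ) (y : ℤ) : ℕ := ((Finset.range n).filter (fun i => x i = y)).card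

/-- number of steps from `y` to the left before time `n` -/
def lf (x : ℕ → ℤ) (n : ℕ) (y : ℤ) : ℕ :=
  ((Finset.range n).filter (fun i => x i = y ∧ x (i + 1) = y - 1)).card

/-- number of steps from `y` to the right before time `n` -/
def rt (x : ℕ → ℤ) (n : ℕ) (y : ℤ) : ℕ :=
  ((Finset.range n).filter (fun i => x i = y ∧ x (i + 1) = y + 1)).card

/-- number of right arrows among the first `n` arrows at `y` -/
def rho (a : ℤ → ℕ → Bool) (y : ℤ) (n : ℕ) : ℕ :=
  ((Finset.range n).filter (fun k => a y k = true)).card

/-- number of left arrows among the first `n` arrows at `y` -/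
def lam (a : ℤ → ℕ → Bool) (y : ℤ) (n : ℕ) : ℕ :=
  ((Finset.range n).filter (fun k => a y k = false)).card

theorem visits_eq (x : ℕ → ℤ) (n : ℕ) : visits x n = lt x n (x n) := rfl

theorem lt_succ (x : ℕ → ℤ) (n : ℕ) (y : ℤ) :
    lt x (n + 1) y = lt x n y + if x n = y then 1 else 0 := by
  unfold lt
  rw [Finset.range_add_one, Finset.filter_insert]
  split_ifs with h
  · rw [Finset.card_insert_of_notMem (by simp)]
  · simp

theorem lf_succ (x : ℕ → ℤ) (n : ℕ) (y : ℤ) :
    lf x (n + 1) y = lf x n y + if x n = y ∧ x (n + 1) = y - 1 then 1 else 0 := by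
  unfold lf
  rw [Finset.range_add_one, Finset.filter_insert]
  split_ifs with h
  · rw [Finset.card_insert_of_notMem (by simp)]
  · simp

theorem rt_succ (x : ℕ → ℤ) (n : ℕ) (y : ℤ) :
    rt x (n + 1) y = rt x n y + if x n = y ∧ x (n + 1) = y + 1 then 1 else 0 := by
  unfold rt
  rw [Finset.range_add_one, Finset.filter_insert]
  split_ifs with h
  · rw [Finset.card_insert_of_notMem (by simp)]
  · simp

theorem rho_succ (a : ℤ → ℕ → Bool) (y : ℤ) (n : ℕ) :
    rho a y (n + 1) = rho a y n + if a y n = true then 1 else 0 := by
  unfold rho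
  rw [Finset.range_add_one, Finset.filter_insert]
  split_ifs with h
  · rw [Finset.card_insert_of_notMem (by simp)]
  · simp

theorem lam_succ (a : ℤ → ℕ → Bool) (y : ℤ) (n : ℕ) :
    lam a y (n + 1) = lam a y n + if a y n = false then 1 else 0 := by
  unfold lam
  rw [Finset.range_add_one, Finset.filter_insert]
  split_ifs with h
  · rw [Finset.card_insert_of_notMem (by simp)]
  · simp

theorem rho_mono (a : ℤ → ℕ → Bool) (y : ℤ) : Monotone (rho a y) :=
  monotone_nat_of_le_succ fun n => by rw [rho_succ]; omega

theorem lam_mono (a : ℤ → ℕ → Bool) (y : ℤ) : Monotone (lam a y) :=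
  monotone_nat_of_le_succ fun n => by rw [lam_succ]; omega

theorem rho_add_lam (a : ℤ → ℕ → Bool) (y : ℤ) (n : ℕ) : rho a y n + lam a y n = n := by
  induction n with
  | zero => simp [rho, lam]
  | succ n ih =>
    rw [rho_succ, lam_succ]
    cases h : a y n <;> simp <;> omega

variable {a : ℤ → ℕ → Bool} {x : ℕ → ℤ}

theorem Follows.lf_eq (hx : Follows a x) (n : ℕ) (y : ℤ) : lf x n y = lam a y (lt x n y) := by
  induction n with
  | zero => simp [lf, lam, lt]
  | succ n ih =>
    rw [lf_succ, lt_succ]
    have h := hx.2 n
    by_cases hy : x n = y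
    · rw [if_pos hy, lam_succ, ih]
      congr 1
      have hv : visits x n = lt x n y := by rw [visits_eq, hy]
      rw [hv, hy] at h
      rw [h]
      cases h' : a y (lt x n y) <;> simp [hy]
      omega
    · simp [hy, ih]

theorem Follows.rt_eq (hx : Follows a x) (n : ℕ) (y : ℤ) : rt x n y = rho a y (lt x n y) := by
  induction n with
  | zero => simp [rt, rho, lt]
  | succ n ih =>
    rw [rt_succ, lt_succ]
    have h := hx.2 n
    by_cases hy : x n = y
    · rw [if_pos hy, rho_succ, ih]
      congr 1
      have hv : visits x n = lt x n y := by rw [visits_eq, hy]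
      rw [hv, hy] at h
      rw [h]
      cases h' : a y (lt x n y) <;> simp [hy]
      omega
    · simp [hy, ih]

theorem Follows.step (hx : Follows a x) (n : ℕ) : x (n + 1) = x n + 1 ∨ x (n + 1) = x n - 1 := by
  rw [hx.2 n]
  split_ifs <;> simp

/-- Conservation of the number of crossings of the edge `{y-1, y}`. -/
theorem Follows.flow (hx : Follows a x) (n : ℕ) (y : ℤ) :
    (rt x n (y - 1) : ℤ) - lf x n y = (if y ≤ x n then 1 else 0) - (if y ≤ 0 then 1 else 0) := by
  induction n with
  | zero => simp [rt, lf, hx.1]
  | succ n ih =>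
    rw [rt_succ, lf_succ]
    rcases hx.step n with h | h <;> rw [h] <;> push_cast
    · by_cases h1 : x n = y - 1
      · simp only [h1] at ih ⊢
        simp at ih ⊢
        split_ifs at * <;> omega
      · have : ¬ (x n = y ∧ x n + 1 = y - 1) := by omega
        rw [if_neg this, if_neg (by tauto)]
        split_ifs at * <;> omega
    · by_cases h1 : x n = y
      · simp only [h1] at ih ⊢
        simp at ih ⊢
        split_ifs at * <;> omega
      · rw [if_neg (by omega), if_neg (by tauto)]
        split_ifs at * <;> omega

theorem lf_le_lt (x : ℕ → ℤ) (n : ℕ) (y : ℤ) : lf x n y ≤ lt x n y := by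
  unfold lf lt
  apply Finset.card_le_card
  intro i hi
  simp only [Finset.mem_filter] at hi ⊢
  exact ⟨hi.1, hi.2.1⟩

theorem sum_lt_le (x : ℕ → ℤ) (n K : ℕ) (j : ℤ) :
    ∑ i ∈ Finset.range K, lt x n (j - i) ≤ n := by
  unfold lt
  rw [← Finset.card_biUnion]
  · calc _ ≤ (Finset.range n).card := by
          apply Finset.card_le_card
          intro i hi
          rw [Finset.mem_biUnion] at hi
          obtain ⟨k, -, hk⟩ := hi
          exact (Finset.mem_filter.1 hk).1
      _ = n := Finset.card_range n
  · intro i _ k _ hik
    rw [Function.onFun, Finset.disjoint_left]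
    intro s hs hs'
    simp only [Finset.mem_filter] at hs hs'
    apply hik
    have := hs.2.symm.trans hs'.2
    omega

/-- Main deterministic estimate: a long run of left arrows at a site `j ≥ 0`, and balanced arrow
stacks at the `K` sites to the left of `j`, force a large hitting time of `j + 1`. -/
theorem Follows.main (hx : Follows a x) (j : ℤ) (hj : 0 ≤ j) (t h K : ℕ)
    (h1 : ∀ k < t, a j k = false) (hK : 2 * (K * h) ≤ t)
    (h2 : ∀ i < K, rho a (j - (i + 1)) (2 * (t - i * h) - h) < t - i * h)
    (n : ℕ) (hn : j + 1 ≤ x n) : K * t ≤ 2 * n := by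
  have key : ∀ i : ℕ, i ≤ K → t - i * h ≤ lf x n (j - i) := by
    intro i
    induction i with
    | zero =>
      intro _
      have hf := hx.flow n (j + 1)
      rw [if_pos hn, if_neg (by omega)] at hf
      have hr : 1 ≤ rt x n j := by
        have : j + 1 - 1 = j := by ring
        rw [this] at hf
        omega
      rw [hx.rt_eq] at hr
      have hzero : rho a j t = 0 := by
        unfold rho
        rw [Finset.card_eq_zero, Finset.filter_eq_empty_iff]
        intro k hk
        rw [h1 k (Finset.mem_range.1 hk)]
        simp
      have hlt : t ≤ lt x n j := by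
        by_contra hcon
        push Not at hcon
        have := rho_mono a j hcon.le
        omega
      have h3 := lam_mono a j hlt
      have h4 := rho_add_lam a j t
      have h5 := hx.lf_eq n j
      simp only [Nat.cast_zero, sub_zero]
      omega
    | succ i ih =>
      intro hi
      have ih' := ih (by omega)
      have hf := hx.flow n (j - i)
      rw [if_pos (by omega)] at hf
      have hr : lf x n (j - i) ≤ rt x n (j - i - 1) := by
        split_ifs at hf <;> omega
      rw [hx.rt_eq] at hr
      have e : j - i - 1 = j - (i + 1) := by ring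
      have hcast : ((i + 1 : ℕ) : ℤ) = (i : ℤ) + 1 := by push_cast; ring
      rw [e] at hr
      rw [hcast]
      have h3 := h2 i (by omega)
      have hlt : 2 * (t - i * h) - h ≤ lt x n (j - (i + 1)) := by
        by_contra hcon
        push Not at hcon
        have := rho_mono a (j - (i + 1)) hcon.le
        omega
      have h4 := lam_mono a (j - (i + 1)) hlt
      have h5 := rho_add_lam a (j - (i + 1)) (2 * (t - i * h) - h)
      have h6 := hx.lf_eq n (j - (i + 1))
      have h7 : (i + 1) * h = i * h + h := by ring
      rw [h7]
      omega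
  have hsum : ∑ i ∈ Finset.range K, t ≤ ∑ i ∈ Finset.range K, 2 * lt x n (j - i) := by
    apply Finset.sum_le_sum
    intro i hi
    have hi' := Finset.mem_range.1 hi
    have h3 := key i hi'.le
    have h4 := lf_le_lt x n (j - i)
    have h5 : i * h ≤ K * h := Nat.mul_le_mul_right h hi'.le
    omega
  rw [Finset.sum_const, Finset.card_range, smul_eq_mul, ← Finset.mul_sum] at hsum
  have := sum_lt_le x n K j
  omega

/-- The state of the walk: position and local times. -/
def walkState (a : ℤ → ℕ → Bool) : ℕ → ℤ × (ℤ → ℕ)
  | 0 => (0, fun _ => 0)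
  | n + 1 =>
    (if a (walkState a n).1 ((walkState a n).2 (walkState a n).1)
      then (walkState a n).1 + 1 else (walkState a n).1 - 1,
      Function.update (walkState a n).2 (walkState a n).1
        ((walkState a n).2 (walkState a n).1 + 1))

/-- The path that follows the arrows `a`. -/
def walk (a : ℤ → ℕ → Bool) (n : ℕ) : ℤ := (walkState a n).1

theorem walkState_snd (a : ℤ → ℕ → Bool) (n : ℕ) (y : ℤ) :
    (walkState a n).2 y = lt (walk a) n y := by
  induction n with
  | zero => simp [walkState, lt]
  | succ n ih =>
    rw [lt_succ]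
    show Function.update (walkState a n).2 (walkState a n).1
        ((walkState a n).2 (walkState a n).1 + 1) y = _
    by_cases h : walk a n = y
    · rw [if_pos h]
      have h' : (walkState a n).1 = y := h
      rw [h', Function.update_self, ih]
    · rw [if_neg h]
      have h' : y ≠ (walkState a n).1 := fun h' => h h'.symm
      rw [Function.update_of_ne h', ih]
      rfl

theorem follows_walk (a : ℤ → ℕ → Bool) : Follows a (walk a) := by
  refine ⟨rfl, fun n => ?_⟩
  have : walk a (n + 1) = if a (walkState a n).1 ((walkState a n).2 (walkState a n).1)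
      then (walkState a n).1 + 1 else (walkState a n).1 - 1 := rfl
  rw [this, walkState_snd]
  rfl

theorem Follows.unique {x' : ℕ → ℤ} (hx : Follows a x) (hx' : Follows a x') : x = x' := by
  have key : ∀ n, ∀ i ≤ n, x i = x' i := by
    intro n
    induction n with
    | zero =>
      intro i hi
      obtain rfl : i = 0 := by omega
      rw [hx.1, hx'.1]
    | succ n ih =>
      intro i hi
      rcases Nat.lt_or_ge i (n + 1) with h | h
      · exact ih i (by omega)
      · obtain rfl : i = n + 1 := by omega
        rw [hx.2, hx'.2]
        have hv : visits x n = visits x' n := by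
          unfold visits
          congr 1
          apply Finset.filter_congr
          intro k hk
          rw [ih k (Finset.mem_range.1 hk).le, ih n le_rfl]
        rw [hv, ih n le_rfl]
  funext n
  exact key n n le_rfl

/-- reflection of the arrows -/
def reflect (a : ℤ → ℕ → Bool) : ℤ → ℕ → Bool := fun y k => !(a (-y) k)

theorem Follows.reflect (hx : Follows a x) : Follows (reflect a) (fun n => - x n) := by
  refine ⟨by simp [hx.1], fun n => ?_⟩
  have hv : visits (fun n => - x n) n = visits x n := by
    unfold visits
    congr 1
    apply Finset.filter_congr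
    intro k _
    simp
  show - x (n + 1) = _
  rw [hv, hx.2 n]
  unfold Pool.Agent.Work.MP_204ba2_pr.reflect
  simp only [neg_neg]
  cases h : a (x n) (visits x n) <;> simp <;> ring

theorem walk_reflect (a : ℤ → ℕ → Bool) (n : ℕ) : walk (reflect a) n = - walk a n := by
  have := (follows_walk (reflect a)).unique (follows_walk a).reflect
  exact congrFun this n

end Pool.Agent.Work.MP_204ba2_pr
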