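import Mathlib
import Pool.Agent.Work.MP_204ba2_pr.Walk

/-!
Probabilistic part: the one sided estimate.
-/

namespace Pool.Agent.Work.MP_204ba2_pr

open MeasureTheory ProbabilityTheory Filter Finset
open scoped ENNReal

/-- The fair coin. -/
noncomputable def coin : Measure Bool :=
  (2⁻¹ : ℝ≥0∞) • Measure.dirac true + (2⁻¹ : ℝ≥0∞) • Measure.dirac false

instance : IsProbabilityMeasure coin := by
  constructor
  simp [coin, ENNReal.inv_two_add_inv_two]

theorem coin_singleton (b : Bool) : coin {b} = 2⁻¹ := by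
  cases b <;> simp [coin]

/-- i.i.d. fair coins indexed by `ℤ × ℕ`. -/
noncomputable def coins : Measure (ℤ × ℕ → Bool) := Measure.infinitePi (fun _ => coin)

instance : IsProbabilityMeasure coins := by unfold coins; infer_instance

/-- number of heads among the first `n` coins at `y` -/
def heads (η : ℤ × ℕ → Bool) (y : ℤ) (n : ℕ) : ℕ :=
  ((Finset.range n).filter (fun k => η (y, k) = true)).card

theorem chebyshev (y : ℤ) (n h : ℕ) (hh : 0 < h) :
    coins {η | 2 * n + h ≤ 4 * heads η y n} ≤ ENNReal.ofReal (4 * n / h ^ 2) := by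
  set X : ℕ → (ℤ × ℕ → Bool) → ℝ := fun k η => if η (y, k) = true then 1 else 0 with hX
  have hXm : ∀ k, Measurable (X k) := by
    intro k
    have : X k = (fun b : Bool => if b = true then (1:ℝ) else 0) ∘ (fun η : ℤ × ℕ → Bool => η (y,k)) := rfl
    rw [this]
    exact (measurable_of_countable _).comp (measurable_pi_apply _)
  have hlaw : ∀ k, coins.map (fun η : ℤ × ℕ → Bool => η (y,k)) = coin := by
    intro k
    exact Measure.infinitePi_map_eval (fun _ => coin) (y,k)
  have hint : ∀ (g : Bool → ℝ) (k : ℕ), ∫ η, g (η (y,k)) ∂coins = (g true + g false) / 2 := by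
    intro g k
    have h1 : ∫ η, g (η (y,k)) ∂coins = ∫ b, g b ∂(coins.map (fun η : ℤ × ℕ → Bool => η (y,k))) := by
      rw [integral_map (measurable_pi_apply _).aemeasurable]
      exact (measurable_of_countable g).aestronglyMeasurable
    rw [h1, hlaw]
    unfold coin
    rw [integral_add_measure, integral_smul_measure, integral_smul_measure, integral_dirac,
      integral_dirac]
    · simp; ring
    · exact Integrable.smul_measure Integrable.of_finite (by simp)
    · exact Integrable.smul_measure Integrable.of_finite (by simp)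
  have hmean : ∀ k, ∫ η, X k η ∂coins = 1 / 2 := by
    intro k
    have := hint (fun b => if b = true then (1:ℝ) else 0) k
    simpa using this
  have hbd : ∀ k η, |X k η| ≤ 1 := by
    intro k η
    simp only [hX]
    split_ifs <;> simp
  have hmem : ∀ k, MemLp (X k) 2 coins := by
    intro k
    apply MemLp.of_bound (hXm k).aestronglyMeasurable 1
    exact ae_of_all _ (fun η => by rw [Real.norm_eq_abs]; exact hbd k η)
  have hvar : ∀ k, Var[X k; coins] = 1 / 4 := by
    intro k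
    rw [variance_eq_sub (hmem k), hmean]
    have h2 := hint (fun b => if b = true then (1:ℝ) else 0) k
    have h3 : ∫ η, (X k ^ 2) η ∂coins = 1 / 2 := by
      have : (fun η => (X k ^ 2) η) = X k := by
        funext η
        simp only [Pi.pow_apply, hX]
        split_ifs <;> simp
      rw [this, hmean]
    rw [h3]; norm_num
  have hindep : iIndepFun X coins := by
    have h1 := iIndepFun_infinitePi (P := fun _ : ℤ × ℕ => coin)
      (X := fun _ (b : Bool) => if b = true then (1:ℝ) else 0) (fun _ => measurable_of_countable _)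
    exact h1.precomp (g := fun k : ℕ => (y, k)) (fun a b hab => by simpa using hab)
  have hvarsum : Var[∑ k ∈ Finset.range n, X k; coins] = n / 4 := by
    rw [IndepFun.variance_sum (fun k _ => hmem k) (fun i _ j _ hij => hindep.indepFun hij)]
    simp only [hvar, Finset.sum_const, Finset.card_range, nsmul_eq_mul]
    ring
  have hmeansum : ∫ η, (∑ k ∈ Finset.range n, X k) η ∂coins = n / 2 := by
    simp only [Finset.sum_apply]
    rw [integral_finsetSum]
    · simp only [hmean, Finset.sum_const, Finset.card_range, nsmul_eq_mul]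
      ring
    · intro k _
      exact (hmem k).integrable (by norm_num)
  have hcount : ∀ η, (∑ k ∈ Finset.range n, X k) η = heads η y n := by
    intro η
    simp only [Finset.sum_apply, hX, heads, Finset.card_filter]
    push_cast
    rfl
  have hc : (0:ℝ) < h / 4 := by
    have : (0:ℝ) < h := by exact_mod_cast hh
    positivity
  have hmain := meas_ge_le_variance_div_sq
    (memLp_finsetSum' (Finset.range n) (fun k _ => hmem k)) hc
  rw [hvarsum, hmeansum] at hmain
  calc coins {η | 2 * n + h ≤ 4 * heads η y n}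
      ≤ coins {η | (h:ℝ) / 4 ≤ |(∑ k ∈ Finset.range n, X k) η - n / 2|} := by
        apply measure_mono
        intro η hη
        simp only [Set.mem_ofPred_eq] at hη ⊢
        rw [hcount]
        have h1 : (2:ℝ) * n + h ≤ 4 * heads η y n := by exact_mod_cast hη
        apply le_trans _ (le_abs_self _)
        linarith
    _ ≤ ENNReal.ofReal (n / 4 / (h / 4) ^ 2) := hmain
    _ = ENNReal.ofReal (4 * n / h ^ 2) := by
        congr 1
        field_simp

/-- The arrows: at `y`, the first `z y` arrows point right if `z y > 0`, the first `-z y` arrows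
point left if `z y < 0`, and all other arrows are given by the coins. -/
def arrow (z : ℤ → ℤ) (η : ℤ × ℕ → Bool) : ℤ → ℕ → Bool := fun y k =>
  if (k : ℤ) < z y then true else if (k : ℤ) < - z y then false else η (y, k)

/-- The law of the pair (stack types, coins). -/
noncomputable def base (ζ : Measure ℤ) [IsProbabilityMeasure ζ] :
    Measure ((ℤ → ℤ) × (ℤ × ℕ → Bool)) :=
  (Measure.infinitePi (fun _ : ℤ => ζ)).prod coins

instance (ζ : Measure ℤ) [IsProbabilityMeasure ζ] : IsProbabilityMeasure (base ζ) := by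
  unfold base; infer_instance

theorem rho_arrow_le (z : ℤ → ℤ) (η : ℤ × ℕ → Bool) (y : ℤ) (n : ℕ) :
    rho (arrow z η) y n ≤ (z y).toNat + heads η y n := by
  unfold rho heads
  have hsub : (Finset.range n).filter (fun k => arrow z η y k = true) ⊆
      Finset.range (z y).toNat ∪ (Finset.range n).filter (fun k => η (y, k) = true) := by
    intro k hk
    rw [Finset.mem_filter] at hk
    rw [Finset.mem_union]
    by_cases h1 : (k : ℤ) < z y
    · left; rw [Finset.mem_range]; omega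
    · right
      rw [Finset.mem_filter]
      refine ⟨hk.1, ?_⟩
      have h2 := hk.2
      unfold arrow at h2
      rw [if_neg h1] at h2
      split_ifs at h2 with h3
      exact h2
  calc _ ≤ _ := Finset.card_le_card hsub
    _ ≤ _ := Finset.card_union_le _ _
    _ = _ := by rw [Finset.card_range]

/-- good event at scale `m` -/
def Good (m : ℕ) (p : (ℤ → ℤ) × (ℤ × ℕ → Bool)) : Prop :=
  ∃ j : ℕ, j < 25 ^ (m + 1) ∧ p.1 (j : ℤ) = -(16 : ℤ) ^ (m + 1) ∧
    ∀ i : ℕ, i < 2 ^ (m + 1) → p.1 ((j : ℤ) - (i + 1)) ≤ 8 ^ m ∧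
      4 * heads p.2 ((j : ℤ) - (i + 1)) (2 * (16 ^ (m + 1) - i * (4 * 8 ^ m)) - 4 * 8 ^ m) <
        2 * (2 * (16 ^ (m + 1) - i * (4 * 8 ^ m)) - 4 * 8 ^ m) + 4 * 8 ^ m

theorem Good.walk {m : ℕ} {p : (ℤ → ℤ) × (ℤ × ℕ → Bool)} (h : Good m p) (n : ℕ)
    (hn : (25 : ℤ) ^ (m + 1) ≤ walk (arrow p.1 p.2) n) : 32 ^ (m + 1) ≤ 2 * n := by
  obtain ⟨j, hj, hz, hg⟩ := h
  have h32 : (32 : ℕ) ^ (m + 1) = 2 ^ (m + 1) * 16 ^ (m + 1) := by
    rw [← mul_pow]; norm_num
  rw [h32]
  have hKh : 2 * (2 ^ (m + 1) * (4 * 8 ^ m)) = 16 ^ (m + 1) := by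
    have : (16 : ℕ) ^ m = 2 ^ m * 8 ^ m := by rw [← mul_pow]; norm_num
    rw [pow_succ 16, this]; ring
  apply (follows_walk (arrow p.1 p.2)).main (j : ℤ) (by positivity) (16 ^ (m + 1)) (4 * 8 ^ m)
    (2 ^ (m + 1))
  · intro k hk
    unfold arrow
    rw [hz]
    have hk' : (k : ℤ) < 16 ^ (m + 1) := by exact_mod_cast hk
    have hpos : (0 : ℤ) < 16 ^ (m + 1) := by positivity
    rw [if_neg (by omega), if_pos (by omega)]
  · exact hKh.le
  · intro i hi
    obtain ⟨h1, h2⟩ := hg i hi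
    have h3 := rho_arrow_le p.1 p.2 ((j : ℤ) - (i + 1))
      (2 * (16 ^ (m + 1) - i * (4 * 8 ^ m)) - 4 * 8 ^ m)
    have h4 : (p.1 ((j : ℤ) - (i + 1))).toNat ≤ 8 ^ m := by
      rw [Int.toNat_le]
      exact_mod_cast h1
    have h5 : i * (4 * 8 ^ m) ≤ 2 ^ (m + 1) * (4 * 8 ^ m) := Nat.mul_le_mul_right _ hi.le
    have h6 : 4 * 8 ^ m ≤ 2 * (2 ^ (m + 1) * (4 * 8 ^ m)) := by
      have : 1 ≤ 2 ^ (m+1) := Nat.one_le_two_pow
      nlinarith [this, Nat.zero_le (4 * 8 ^ m)]
    omega
  · have : ((j : ℤ)) < 25 ^ (m + 1) := by exact_mod_cast hj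
    omega

theorem measurable_heads (y : ℤ) (n : ℕ) : Measurable (fun η : ℤ × ℕ → Bool => heads η y n) := by
  unfold heads
  simp only [Finset.card_filter]
  apply Finset.measurable_fun_sum
  intro k _
  have : (fun η : ℤ × ℕ → Bool => if η (y, k) = true then (1:ℕ) else 0) =
      (fun b : Bool => if b = true then (1:ℕ) else 0) ∘ (fun η : ℤ × ℕ → Bool => η (y,k)) := rfl
  rw [this]
  exact (measurable_of_countable _).comp (measurable_pi_apply _)

theorem pow_one_sub_le {p : ℝ} (hp0 : 0 < p) (hp1 : p ≤ 1) {N : ℕ} (hN : 0 < N) :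
    (1 - p) ^ N ≤ 1 / (N * p) := by
  have hN' : (0:ℝ) < N := by exact_mod_cast hN
  rw [le_div_iff₀ (by positivity)]
  have h1 : (1:ℝ) + N * p ≤ (1 + p) ^ N := one_add_mul_le_pow (by linarith) N
  have h2 : (1 - p) ^ N * (1 + p) ^ N ≤ 1 := by
    rw [← mul_pow]
    apply pow_le_one₀
    · nlinarith
    · nlinarith
  have h3 : 0 ≤ (1 - p) ^ N := pow_nonneg (by linarith) _
  nlinarith

theorem infinitePi_pair (ζ : Measure ℤ) [IsProbabilityMeasure ζ] {y y' : ℤ} (hy : y ≠ y')
    (S S' : Set ℤ) :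
    Measure.infinitePi (fun _ : ℤ => ζ) {z | z y ∈ S ∧ z y' ∈ S'} = ζ S * ζ S' := by
  have h := Measure.infinitePi_map_eval_prod (P := fun _ : ℤ => ζ) hy
  have h2 : (Measure.infinitePi (fun _ : ℤ => ζ)).map (fun ω => (ω y, ω y')) (S ×ˢ S') =
      ζ S * ζ S' := by
    rw [h, Measure.prod_prod]
  rw [← h2, Measure.map_apply (by fun_prop) (MeasurableSet.prod (by trivial) (by trivial))]
  rfl

theorem infinitePi_single (ζ : Measure ℤ) [IsProbabilityMeasure ζ] (y : ℤ) (S : Set ℤ) :
    Measure.infinitePi (fun _ : ℤ => ζ) {z | z y ∈ S} = ζ S := by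
  have h := Measure.infinitePi_map_eval (fun _ : ℤ => ζ) y
  conv_rhs => rw [← h]
  rw [Measure.map_apply (by fun_prop) (by trivial)]
  rfl

/-- the probability estimate at scale `m` -/
theorem prob_not_good (ζ : Measure ℤ) [IsProbabilityMeasure ζ] (c C : ℝ) (hc : 0 < c) (hC : 0 ≤ C)
    (hlow : ∀ m : ℕ, ENNReal.ofReal (c * (1 / 20) ^ m) ≤ ζ {-(16 : ℤ) ^ m})
    (hup : ∀ m : ℕ, ζ {-(16 : ℤ) ^ m} ≤ ENNReal.ofReal (C * (1 / 16) ^ m))
    (htail : ∀ s : ℕ, 0 < s → ζ {z | (s : ℤ) ≤ z} ≤ ENNReal.ofReal (C / s)) (m : ℕ) :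
    base ζ {p | ¬ Good m p} ≤
      ENNReal.ofReal (1 / c * (4 / 5) ^ (m + 1) + C * (C + 8) * (25 / 8) * (25 / 32) ^ m) := by
  classical
  set N := 25 ^ (m + 1) with hN
  set K := 2 ^ (m + 1) with hK
  set t := 16 ^ (m + 1) with ht
  set h := 4 * 8 ^ m with hh
  set A : Set ((ℤ → ℤ) × (ℤ × ℕ → Bool)) :=
    {p | ∀ j ∈ Finset.range N, p.1 ((j : ℕ) : ℤ) ≠ -(16 : ℤ) ^ (m + 1)} with hA
  set B1 : ℕ → ℕ → Set ((ℤ → ℤ) × (ℤ × ℕ → Bool)) := fun j i =>
    {p | p.1 ((j : ℕ) : ℤ) = -(16 : ℤ) ^ (m + 1) ∧ (8 ^ m : ℤ) ≤ p.1 ((j : ℤ) - (i + 1))} with hB1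
  set B2 : ℕ → ℕ → Set ((ℤ → ℤ) × (ℤ × ℕ → Bool)) := fun j i =>
    {p | p.1 ((j : ℕ) : ℤ) = -(16 : ℤ) ^ (m + 1) ∧
      2 * (2 * (t - i * h) - h) + h ≤ 4 * heads p.2 ((j : ℤ) - (i + 1)) (2 * (t - i * h) - h)}
    with hB2
  have hsub : {p | ¬ Good m p} ⊆ A ∪ ⋃ j ∈ Finset.range N, ⋃ i ∈ Finset.range K, (B1 j i ∪ B2 j i) := by
    intro p hp
    by_cases hpA : p ∈ A
    · exact Or.inl hpA
    · right
      simp only [hA, Set.mem_ofPred_eq, not_forall, not_not] at hpA
      obtain ⟨j, hj, hz⟩ := hpA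
      simp only [Set.mem_ofPred_eq, Good, not_exists, not_and, not_forall] at hp
      obtain ⟨i, hi, hbad⟩ := hp j (Finset.mem_range.1 hj) hz
      simp only [Set.mem_iUnion]
      refine ⟨j, hj, i, Finset.mem_range.2 hi, ?_⟩
      by_cases h8 : (8 ^ m : ℤ) ≤ p.1 ((j : ℤ) - (i + 1))
      · exact Or.inl ⟨hz, h8⟩
      · exact Or.inr ⟨hz, not_lt.1 (hbad (not_le.1 h8).le)⟩
  have hPA : base ζ A ≤ ENNReal.ofReal (1 / c * (4 / 5) ^ (m + 1)) := by
    set S : Finset ℤ := (Finset.range N).image (fun j : ℕ => (j : ℤ)) with hS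
    have hAeq : A = (Set.pi (S : Set ℤ) (fun _ => ({-(16 : ℤ) ^ (m + 1)} : Set ℤ)ᶜ)) ×ˢ Set.univ := by
      ext p
      simp only [hA, hS, Set.mem_ofPred_eq, Set.mem_prod, Set.mem_univ, and_true, Set.mem_pi,
        Finset.coe_image, Set.mem_image, Finset.mem_coe, Set.mem_compl_iff, Set.mem_singleton_iff]
      constructor
      · rintro h _ ⟨j, hj, rfl⟩
        exact h j hj
      · intro h j hj
        exact h _ ⟨j, hj, rfl⟩
    have hcard : S.card = N := by
      rw [hS, Finset.card_image_of_injective _ Nat.cast_injective, Finset.card_range]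
    rw [hAeq]
    unfold base
    rw [Measure.prod_prod, measure_univ, mul_one, Measure.infinitePi_pi]
    · rw [Finset.prod_const, hcard]
      set q : ℝ := (ζ {-(16 : ℤ) ^ (m + 1)}).toReal with hq
      have hqe : ζ {-(16 : ℤ) ^ (m + 1)} = ENNReal.ofReal q := by
        rw [hq, ENNReal.ofReal_toReal (measure_ne_top _ _)]
      have hq1 : q ≤ 1 := by
        rw [hq]
        exact ENNReal.toReal_le_of_le_ofReal (by norm_num) (by simpa using prob_le_one)
      have hq0 : c * (1 / 20) ^ (m + 1) ≤ q := by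
        have := hlow (m + 1)
        rw [hqe] at this
        exact (ENNReal.ofReal_le_ofReal_iff (by rw [hq]; positivity)).1 this
      have hpos : 0 < q := lt_of_lt_of_le (by positivity) hq0
      have hcompl : ζ ({-(16 : ℤ) ^ (m + 1)} : Set ℤ)ᶜ = ENNReal.ofReal (1 - q) := by
        rw [prob_compl_eq_one_sub (by trivial), hqe, ENNReal.ofReal_sub _ hpos.le]
        simp
      rw [hcompl, ← ENNReal.ofReal_pow (by linarith)]
      apply ENNReal.ofReal_le_ofReal
      have hNpos : 0 < N := by positivity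
      have hN' : (0:ℝ) < N := by exact_mod_cast hNpos
      calc (1 - q) ^ N ≤ 1 / (N * q) := pow_one_sub_le hpos hq1 hNpos
        _ ≤ 1 / (N * (c * (1 / 20) ^ (m + 1))) := by
          apply one_div_le_one_div_of_le (by positivity)
          exact mul_le_mul_of_nonneg_left hq0 hN'.le
        _ = 1 / c * (4 / 5) ^ (m + 1) := by
          rw [hN]
          push_cast
          have e : (4 / 5 : ℝ) ^ (m + 1) = 20 ^ (m + 1) / 25 ^ (m + 1) := by
            rw [← div_pow]; norm_num
          rw [e, one_div_pow]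
          field_simp
    · intro _ _; trivial
  have hPB1 : ∀ j i, base ζ (B1 j i) ≤ ENNReal.ofReal (C * (1 / 16) ^ (m + 1) * (C / 8 ^ m)) := by
    intro j i
    have hBeq : B1 j i = {z : ℤ → ℤ | z (j : ℤ) ∈ ({-(16 : ℤ) ^ (m + 1)} : Set ℤ) ∧
        z ((j : ℤ) - (i + 1)) ∈ {z : ℤ | ((8 ^ m : ℕ) : ℤ) ≤ z}} ×ˢ Set.univ := by
      ext p
      simp [hB1]
    rw [hBeq]
    unfold base
    rw [Measure.prod_prod, measure_univ, mul_one, infinitePi_pair ζ (by omega),
      ENNReal.ofReal_mul (by positivity)]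
    have h8 : 0 < 8 ^ m := by positivity
    have ht8 := htail (8 ^ m) h8
    push_cast at ht8 ⊢
    exact mul_le_mul' (hup (m + 1)) ht8
  have hPB2 : ∀ j i, base ζ (B2 j i) ≤ ENNReal.ofReal (C * (1 / 16) ^ (m + 1) * (8 * (1 / 4) ^ m)) := by
    intro j i
    have hBeq : B2 j i = {z : ℤ → ℤ | z (j : ℤ) ∈ ({-(16 : ℤ) ^ (m + 1)} : Set ℤ)} ×ˢ
        {η | 2 * (2 * (t - i * h) - h) + h ≤
          4 * heads η ((j : ℤ) - (i + 1)) (2 * (t - i * h) - h)} := by
      ext p
      simp [hB2]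
    rw [hBeq]
    unfold base
    rw [Measure.prod_prod, infinitePi_single, ENNReal.ofReal_mul (by positivity)]
    have hhpos : 0 < h := by positivity
    refine mul_le_mul' (hup (m + 1)) ((chebyshev _ _ h hhpos).trans ?_)
    apply ENNReal.ofReal_le_ofReal
    have hn' : ((2 * (t - i * h) - h : ℕ) : ℝ) ≤ 2 * t := by
      have : 2 * (t - i * h) - h ≤ 2 * t := by omega
      exact_mod_cast this
    have hh' : (h : ℝ) = 4 * 8 ^ m := by rw [hh]; push_cast; ring
    have ht' : (t : ℝ) = 16 * 16 ^ m := by rw [ht]; push_cast; ring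
    calc 4 * ((2 * (t - i * h) - h : ℕ) : ℝ) / (h : ℝ) ^ 2
        ≤ 4 * (2 * t) / (h : ℝ) ^ 2 := by
          apply div_le_div_of_nonneg_right _ (by positivity)
          linarith
      _ = 8 * (1 / 4) ^ m := by
          rw [hh', ht']
          have e : (1 / 4 : ℝ) ^ m = 16 ^ m / (8 ^ m * 8 ^ m) := by
            rw [← mul_pow, ← div_pow]; norm_num
          rw [e]
          field_simp
          norm_num
  calc base ζ {p | ¬ Good m p}
      ≤ base ζ (A ∪ ⋃ j ∈ Finset.range N, ⋃ i ∈ Finset.range K, (B1 j i ∪ B2 j i)) :=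
        measure_mono hsub
    _ ≤ base ζ A + base ζ (⋃ j ∈ Finset.range N, ⋃ i ∈ Finset.range K, (B1 j i ∪ B2 j i)) :=
        measure_union_le _ _
    _ ≤ base ζ A + ∑ j ∈ Finset.range N, ∑ i ∈ Finset.range K, (base ζ (B1 j i) + base ζ (B2 j i)) := by
        gcongr
        refine (measure_biUnion_finset_le _ _).trans (Finset.sum_le_sum fun j _ => ?_)
        refine (measure_biUnion_finset_le _ _).trans (Finset.sum_le_sum fun i _ => ?_)
        exact measure_union_le _ _
    _ ≤ ENNReal.ofReal (1 / c * (4 / 5) ^ (m + 1)) +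
        ∑ j ∈ Finset.range N, ∑ i ∈ Finset.range K,
          (ENNReal.ofReal (C * (1 / 16) ^ (m + 1) * (C / 8 ^ m)) +
            ENNReal.ofReal (C * (1 / 16) ^ (m + 1) * (8 * (1 / 4) ^ m))) := by
        refine add_le_add hPA (Finset.sum_le_sum fun j _ => Finset.sum_le_sum fun i _ => ?_)
        exact add_le_add (hPB1 j i) (hPB2 j i)
    _ ≤ ENNReal.ofReal (1 / c * (4 / 5) ^ (m + 1) + C * (C + 8) * (25 / 8) * (25 / 32) ^ m) := by
        rw [Finset.sum_const, Finset.sum_const, Finset.card_range, Finset.card_range,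
          ← ENNReal.ofReal_add (by positivity) (by positivity), nsmul_eq_mul, nsmul_eq_mul,
          ← ENNReal.ofReal_natCast K, ← ENNReal.ofReal_natCast N,
          ← ENNReal.ofReal_mul (by positivity), ← ENNReal.ofReal_mul (by positivity),
          ← ENNReal.ofReal_add (by positivity) (by positivity)]
        apply ENNReal.ofReal_le_ofReal
        gcongr 1 / c * (4 / 5) ^ (m + 1) + ?_
        have h4 : C / 8 ^ m ≤ C * (1 / 4) ^ m := by
          rw [one_div_pow, mul_one_div]
          apply div_le_div_of_nonneg_left hC (by positivity)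
          exact pow_le_pow_left₀ (by norm_num) (by norm_num) m
        calc (N : ℝ) * (K * (C * (1 / 16) ^ (m + 1) * (C / 8 ^ m) +
              C * (1 / 16) ^ (m + 1) * (8 * (1 / 4) ^ m)))
            ≤ (N : ℝ) * (K * (C * (1 / 16) ^ (m + 1) * (C * (1 / 4) ^ m) +
              C * (1 / 16) ^ (m + 1) * (8 * (1 / 4) ^ m))) := by
              gcongr
          _ = C * (C + 8) * (25 / 8) * (25 / 32) ^ m := by
              rw [hN, hK]
              push_cast
              have e : (25 / 32 : ℝ) ^ m = 25 ^ m * 2 ^ m * (1 / 16) ^ m * (1 / 4) ^ m := by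
                rw [← mul_pow, ← mul_pow, ← mul_pow]; norm_num
              rw [e]
              ring

/-- Conditions on the law of the stack type. -/
structure Heavy (ζ : Measure ℤ) : Prop where
  left : ∃ c : ℝ, 0 < c ∧ ∀ m : ℕ, ENNReal.ofReal (c * (1 / 20) ^ m) ≤ ζ {-(16 : ℤ) ^ m}
  right : ∃ c : ℝ, 0 < c ∧ ∀ m : ℕ, ENNReal.ofReal (c * (1 / 20) ^ m) ≤ ζ {(16 : ℤ) ^ m}
  tail : ∃ C : ℝ, 0 ≤ C ∧ ∀ s : ℕ, 0 < s → ζ {z | (s : ℤ) ≤ |z|} ≤ ENNReal.ofReal (C / s)

theorem Heavy.reflect {ζ : Measure ℤ} (hζ : Heavy ζ) : Heavy (ζ.map (fun z => -z)) := by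
  have hneg : Measurable (fun z : ℤ => -z) := measurable_of_countable _
  refine ⟨?_, ?_, ?_⟩
  · obtain ⟨c, hc, h⟩ := hζ.right
    refine ⟨c, hc, fun m => ?_⟩
    rw [Measure.map_apply hneg (by trivial)]
    refine (h m).trans (measure_mono ?_)
    intro z hz
    simp only [Set.mem_singleton_iff] at hz
    simp [hz]
  · obtain ⟨c, hc, h⟩ := hζ.left
    refine ⟨c, hc, fun m => ?_⟩
    rw [Measure.map_apply hneg (by trivial)]
    refine (h m).trans (measure_mono ?_)
    intro z hz
    simp only [Set.mem_singleton_iff] at hz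
    simp [hz]
  · obtain ⟨C, hC, h⟩ := hζ.tail
    refine ⟨C, hC, fun s hs => ?_⟩
    rw [Measure.map_apply hneg (by trivial)]
    refine le_trans (measure_mono ?_) (h s hs)
    intro z hz
    simpa using hz

theorem Heavy.ae_good {ζ : Measure ℤ} [IsProbabilityMeasure ζ] (hζ : Heavy ζ) :
    ∀ᵐ p ∂(base ζ), ∀ᶠ m in atTop, Good m p := by
  obtain ⟨c, hc, hlow⟩ := hζ.left
  obtain ⟨C, hC, htail'⟩ := hζ.tail
  have htail : ∀ s : ℕ, 0 < s → ζ {z | (s : ℤ) ≤ z} ≤ ENNReal.ofReal (C / s) := by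
    intro s hs
    refine le_trans (measure_mono ?_) (htail' s hs)
    intro z hz
    exact le_trans hz (le_abs_self z)
  have hup : ∀ m : ℕ, ζ {-(16 : ℤ) ^ m} ≤ ENNReal.ofReal (C * (1 / 16) ^ m) := by
    intro m
    have h := htail' (16 ^ m) (by positivity)
    push_cast at h
    rw [one_div_pow, mul_one_div]
    refine le_trans (measure_mono ?_) h
    intro z hz
    simp only [Set.mem_singleton_iff] at hz
    simp [hz, abs_neg]
  have hsum : ∑' m, base ζ {p | ¬ Good m p} ≠ ∞ := by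
    apply ne_top_of_le_ne_top _
      (ENNReal.tsum_le_tsum (prob_not_good ζ c C hc hC hlow hup htail))
    apply Summable.tsum_ofReal_ne_top
    apply Summable.add
    · have : Summable (fun m : ℕ => 1 / c * (4 / 5 : ℝ) * (4 / 5) ^ m) :=
        (summable_geometric_of_lt_one (by norm_num) (by norm_num)).mul_left _
      refine this.congr fun m => ?_
      rw [pow_succ]; ring
    · exact (summable_geometric_of_lt_one (by norm_num) (by norm_num)).mul_left _
  have h := ae_eventually_notMem hsum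
  filter_upwards [h] with p hp
  filter_upwards [hp] with m hm
  simpa using hm

theorem eventually_lt_of_hit {x : ℕ → ℤ}
    (h : ∀ᶠ m in atTop, ∀ n : ℕ, (25 : ℤ) ^ (m + 1) ≤ x n → 32 ^ (m + 1) ≤ 2 * n)
    {ε : ℝ} (hε : 0 < ε) : ∀ᶠ n : ℕ in atTop, (x n : ℝ) < ε * n := by
  have hlim : Tendsto (fun m : ℕ => (32 / 25 : ℝ) ^ (m + 1)) atTop atTop :=
    (tendsto_pow_atTop_atTop_of_one_lt (by norm_num)).comp (tendsto_add_atTop_nat 1)
  obtain ⟨M, hM⟩ := eventually_atTop.1 (h.and (hlim.eventually_gt_atTop (50 / ε)))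
  have hn : ∀ᶠ n : ℕ in atTop, (25 : ℝ) ^ (M + 1) ≤ ε * n := by
    have : Tendsto (fun n : ℕ => ε * (n : ℝ)) atTop atTop :=
      tendsto_natCast_atTop_atTop.const_mul_atTop hε
    exact this.eventually_ge_atTop _
  filter_upwards [hn] with n hn
  by_contra hcon
  push Not at hcon
  have hx : (25 : ℝ) ^ (M + 1) ≤ x n := hn.trans hcon
  have hx' : (25 : ℤ) ^ (M + 1) ≤ x n := by exact_mod_cast hx
  have hpos : (0 : ℤ) < x n := lt_of_lt_of_le (by positivity) hx'
  obtain ⟨v, hv⟩ := Int.eq_ofNat_of_zero_le hpos.le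
  have hv0 : v ≠ 0 := by rintro rfl; simp [hv] at hpos
  have h1 := Nat.pow_log_le_self 25 hv0
  have h2 := Nat.lt_pow_succ_log_self (b := 25) (by norm_num) v
  have hMv : 25 ^ (M + 1) ≤ v := by rw [hv] at hx'; exact_mod_cast hx'
  have h3 : M + 1 ≤ Nat.log 25 v := Nat.le_log_of_pow_le (by norm_num) hMv
  obtain ⟨m, hm⟩ : ∃ m, Nat.log 25 v = m + 1 := ⟨Nat.log 25 v - 1, by omega⟩
  rw [hm] at h1 h2
  obtain ⟨h4, h5⟩ := hM m (by omega)
  have h6 := h4 n (by rw [hv]; exact_mod_cast h1)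
  have h6' : (32 : ℝ) ^ (m + 1) ≤ 2 * n := by exact_mod_cast h6
  have h7 : (x n : ℝ) < 25 ^ (m + 2) := by
    rw [hv]; exact_mod_cast h2
  rw [div_pow, lt_div_iff₀ (by positivity), div_mul_eq_mul_div, div_lt_iff₀ hε] at h5
  have h8 : (25 : ℝ) ^ (m + 2) = 25 * 25 ^ (m + 1) := by ring
  nlinarith

/-- One sided estimate: the walk does not have a positive linear speed. -/
theorem Heavy.one_sided {ζ : Measure ℤ} [IsProbabilityMeasure ζ] (hζ : Heavy ζ) :
    ∀ᵐ p ∂(base ζ), ∀ ε : ℝ, 0 < ε → ∀ᶠ n : ℕ in atTop, (walk (arrow p.1 p.2) n : ℝ) < ε * n := by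
  filter_upwards [hζ.ae_good] with p hp ε hε
  apply eventually_lt_of_hit _ hε
  filter_upwards [hp] with m hm n hn
  exact hm.walk n hn

/-- the reflection of the environment and coins -/
def reflectBase (p : (ℤ → ℤ) × (ℤ × ℕ → Bool)) : (ℤ → ℤ) × (ℤ × ℕ → Bool) :=
  (fun y => - p.1 (-y), fun q => !(p.2 (-q.1, q.2)))

theorem arrow_reflectBase (p : (ℤ → ℤ) × (ℤ × ℕ → Bool)) :
    arrow (reflectBase p).1 (reflectBase p).2 = reflect (arrow p.1 p.2) := by
  funext y k
  unfold arrow reflectBase reflect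
  simp only [neg_neg]
  by_cases h1 : (k : ℤ) < p.1 (-y)
  · rw [if_neg (by omega), if_pos h1, if_pos h1]; rfl
  · by_cases h2 : (k : ℤ) < - p.1 (-y)
    · rw [if_pos h2, if_neg h1, if_pos h2]; rfl
    · rw [if_neg h2, if_neg h1, if_neg h1, if_neg h2]

theorem map_reflectBase (ζ : Measure ℤ) [IsProbabilityMeasure ζ]
    [IsProbabilityMeasure (ζ.map (fun z => -z))] :
    (base ζ).map reflectBase = base (ζ.map (fun z => -z)) := by
  have h1 : (Measure.infinitePi (fun _ : ℤ => ζ)).map (fun z y => - z (-y)) =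
      Measure.infinitePi (fun _ : ℤ => ζ.map (fun z => -z)) := by
    have e1 : (fun (z : ℤ → ℤ) (y : ℤ) => - z (-y)) =
        (fun (z : ℤ → ℤ) (y : ℤ) => - z y) ∘ (fun (z : ℤ → ℤ) (y : ℤ) => z (-y)) := rfl
    rw [e1, ← Measure.map_map (by fun_prop) (by fun_prop)]
    have e2 := Measure.map_infinitePi_infinitePi_of_inj (P := fun _ : ℤ => ζ)
      (f := fun y : ℤ => -y) neg_injective
    rw [e2]
    exact Measure.infinitePi_map_pi (fun _ : ℤ => ζ) (f := fun _ z => -z) (fun _ => by fun_prop)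
  have h2 : coins.map (fun η q => !(η (-q.1, q.2))) = coins := by
    have e1 : (fun (η : ℤ × ℕ → Bool) (q : ℤ × ℕ) => !(η (-q.1, q.2))) =
        (fun (η : ℤ × ℕ → Bool) (q : ℤ × ℕ) => !(η q)) ∘
          (fun (η : ℤ × ℕ → Bool) (q : ℤ × ℕ) => η (-q.1, q.2)) := rfl
    have hnot : Measurable (fun b : Bool => !b) := measurable_of_countable _
    rw [e1, ← Measure.map_map (by fun_prop) (by fun_prop)]
    have e2 := Measure.map_infinitePi_infinitePi_of_inj (P := fun _ : ℤ × ℕ => coin)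
      (f := fun q : ℤ × ℕ => (-q.1, q.2)) (fun a b hab => by
        simp only [Prod.mk.injEq, neg_inj] at hab
        exact Prod.ext hab.1 hab.2)
    unfold coins
    rw [e2]
    rw [Measure.infinitePi_map_pi (fun _ : ℤ × ℕ => coin) (f := fun _ b => !b) (fun _ => hnot)]
    congr 1
    funext _
    unfold coin
    rw [Measure.map_add _ _ hnot, Measure.map_smul, Measure.map_smul, Measure.map_dirac' hnot,
      Measure.map_dirac' hnot, add_comm]
    rfl
  have h3 : reflectBase = Prod.map (fun (z : ℤ → ℤ) (y : ℤ) => - z (-y))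
      (fun (η : ℤ × ℕ → Bool) (q : ℤ × ℕ) => !(η (-q.1, q.2))) := rfl
  have hnot : Measurable (fun b : Bool => !b) := measurable_of_countable _
  rw [h3]
  unfold base
  rw [← Measure.map_prod_map _ _ (by fun_prop) (by fun_prop), h1, h2]

/-- Two sided estimate: the walk has zero speed. -/
theorem Heavy.two_sided {ζ : Measure ℤ} [IsProbabilityMeasure ζ] (hζ : Heavy ζ) :
    ∀ᵐ p ∂(base ζ), Tendsto (fun n : ℕ => (walk (arrow p.1 p.2) n : ℝ) / n) atTop (nhds 0) := by
  have hneg : Measurable (fun z : ℤ => -z) := measurable_of_countable _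
  have : IsProbabilityMeasure (ζ.map (fun z => -z)) :=
    Measure.isProbabilityMeasure_map hneg.aemeasurable
  have h1 := hζ.one_sided
  have h2 := hζ.reflect.one_sided
  rw [← map_reflectBase] at h2
  have hm : Measurable reflectBase := by
    have hnot : Measurable (fun b : Bool => !b) := measurable_of_countable _
    unfold reflectBase
    fun_prop
  have h3 := ae_of_ae_map hm.aemeasurable h2
  filter_upwards [h1, h3] with p hp1 hp2
  rw [Metric.tendsto_atTop]
  intro ε hε
  obtain ⟨n0, hn0⟩ := eventually_atTop.1 ((hp1 ε hε).and (hp2 ε hε))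
  refine ⟨max n0 1, fun n hn => ?_⟩
  obtain ⟨h4, h5⟩ := hn0 n (le_of_max_le_left hn)
  have hnpos : (0:ℝ) < n := by
    have : 1 ≤ n := le_of_max_le_right hn
    exact_mod_cast this
  rw [arrow_reflectBase, walk_reflect] at h5
  push_cast at h5
  rw [Real.dist_eq, sub_zero, abs_div, abs_of_pos hnpos, div_lt_iff₀ hnpos, abs_lt]
  constructor <;> linarith

end Pool.Agent.Work.MP_204ba2_pr
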