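import Mathlib
import Pool.Agent.Work.MP_204ba2_pr.Defs

/-!
The finite dimensional distributions of an excited random walk are determined by the law of the
environment.
-/

namespace Pool.Agent.Work.MP_204ba2_pr

open MeasureTheory ProbabilityTheory Filter
open scoped ENNReal

/-- probability of the step `d` when the cookie is `p` -/
noncomputable def stepW (p : unitInterval) (d : ℤ) : ℝ≥0∞ :=
  if d = 1 then ENNReal.ofReal (p : ℝ) else if d = -1 then ENNReal.ofReal (1 - p) else 0

/-- quenched probability that the walk follows `x` up to time `n` -/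
noncomputable def pathW (x : ℕ → ℤ) (n : ℕ) (ω : Env) : ℝ≥0∞ :=
  (if x 0 = 0 then 1 else 0) *
    ∏ i ∈ Finset.range n, stepW (ω (x i) (visits x i)) (x (i + 1) - x i)

theorem measurable_stepW (d : ℤ) : Measurable (fun p => stepW p d) := by
  unfold stepW
  split_ifs
  · exact ENNReal.measurable_ofReal.comp measurable_subtype_coe
  · exact ENNReal.measurable_ofReal.comp (measurable_const.sub measurable_subtype_coe)
  · exact measurable_const

theorem measurable_cookie (y : ℤ) (k : ℕ) : Measurable (fun ω : Env => ω y k) :=
  (measurable_pi_apply k).comp (measurable_pi_apply y)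

theorem measurable_pathW (x : ℕ → ℤ) (n : ℕ) : Measurable (pathW x n) := by
  unfold pathW
  apply Measurable.const_mul
  apply Finset.measurable_fun_prod
  intro i _
  exact (measurable_stepW _).comp (measurable_cookie _ _)

theorem pathW_succ (x : ℕ → ℤ) (n : ℕ) (ω : Env) :
    pathW x (n + 1) ω = pathW x n ω * stepW (ω (x n) (visits x n)) (x (n + 1) - x n) := by
  unfold pathW
  rw [Finset.prod_range_succ, mul_assoc]

/-- The formula for the finite dimensional distributions. -/
def FDD {Ω : Type*} [MeasurableSpace Ω] (P : Measure Env) (μ : Measure Ω)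
    (ω : Ω → Env) (X : ℕ → Ω → ℤ) : Prop :=
  ∀ (n : ℕ) (x : ℕ → ℤ), (μ.restrict {a | ∀ i ≤ n, X i a = x i}).map ω =
    P.withDensity (pathW x n)

variable {Ω : Type*} [MeasurableSpace Ω] {P : Measure Env} {μ : Measure Ω}
    {ω : Ω → Env} {X : ℕ → Ω → ℤ}

theorem measurableSet_initial (hX : ∀ n, Measurable (X n)) (n : ℕ) (x : ℕ → ℤ) :
    MeasurableSet {a | ∀ i ≤ n, X i a = x i} := by
  have : {a | ∀ i ≤ n, X i a = x i} = ⋂ i ∈ Finset.range (n + 1), (X i) ⁻¹' {x i} := by
    ext a
    simp
  rw [this]
  exact Finset.measurableSet_biInter _ fun i _ => hX i (measurableSet_singleton _)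

theorem visits_congr {x y : ℕ → ℤ} {n : ℕ} (h : ∀ i ≤ n, x i = y i) : visits x n = visits y n := by
  unfold visits
  congr 1
  apply Finset.filter_congr
  intro i hi
  rw [h i (Finset.mem_range.1 hi).le, h n le_rfl]

theorem past_le (hω : Measurable ω) (hX : ∀ n, Measurable (X n)) (n : ℕ) :
    past ω X n ≤ (inferInstance : MeasurableSpace Ω) := by
  apply Measurable.comap_le
  exact hω.prodMk (measurable_pi_lambda _ fun i => hX i)

omit [MeasurableSpace Ω] in
theorem measurableSet_past_initial (n : ℕ) (x : ℕ → ℤ) {A : Set Env} (hA : MeasurableSet A) :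
    MeasurableSet[past ω X n] (ω ⁻¹' A ∩ {a | ∀ i ≤ n, X i a = x i}) := by
  refine ⟨A ×ˢ {v | ∀ i : Fin (n + 1), v i = x i}, ?_, ?_⟩
  · apply hA.prod
    have : {v : Fin (n + 1) → ℤ | ∀ i : Fin (n + 1), v i = x i} =
        {fun i : Fin (n + 1) => x i} := by
      ext v
      simp only [Set.mem_ofPred_eq, Set.mem_singleton_iff, funext_iff]
    rw [this]
    exact measurableSet_singleton _
  · ext a
    simp only [Set.mem_preimage, Set.mem_prod, Set.mem_ofPred_eq, Set.mem_inter_iff,
      and_congr_right_iff]
    intro _
    constructor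
    · intro h i hi
      exact h ⟨i, Nat.lt_succ_iff.2 hi⟩
    · intro h i
      exact h i (Nat.lt_succ_iff.1 i.2)


theorem IsExcitedWalk.fdd [IsProbabilityMeasure μ] (h : IsExcitedWalk P μ ω X) :
    FDD P μ ω X := by
  have hω := h.measurable_env
  have hX := h.measurable_walk
  intro n x
  induction n with
  | zero =>
    ext A hA
    rw [Measure.map_apply hω hA, Measure.restrict_apply (hω hA), withDensity_apply _ hA]
    unfold pathW
    simp only [Finset.range_zero, Finset.prod_empty, mul_one, nonpos_iff_eq_zero, forall_eq]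
    split_ifs with h0
    · rw [lintegral_const, one_mul, Measure.restrict_apply .univ, Set.univ_inter, ← h.law_env,
        Measure.map_apply hω hA]
      apply measure_congr
      filter_upwards [h.start] with a ha
      apply propext
      show (a ∈ ω ⁻¹' A ∩ {a | X 0 a = x 0}) ↔ (a ∈ ω ⁻¹' A)
      simp [ha, h0]
    · rw [lintegral_const, zero_mul]
      refine measure_mono_null Set.inter_subset_right ?_
      have : ∀ᵐ a ∂μ, ¬ (X 0 a = x 0) := by
        filter_upwards [h.start] with a ha
        rw [ha]; exact fun h' => h0 h'.symm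
      simpa [ae_iff] using this
  | succ n ih =>
    have hW : pathW x (n + 1) =
        pathW x n * fun w : Env => stepW (w (x n) (visits x n)) (x (n + 1) - x n) := by
      funext w
      exact pathW_succ x n w
    have hsw : Measurable (fun w : Env => stepW (w (x n) (visits x n)) (x (n + 1) - x n)) :=
      (measurable_stepW _).comp (measurable_cookie _ _)
    rw [hW, withDensity_mul _ (measurable_pathW x n) hsw, ← ih]
    ext A hA
    rw [Measure.map_apply hω hA, Measure.restrict_apply (hω hA), withDensity_apply _ hA,
      Measure.restrict_map hω hA, lintegral_map hsw hω, Measure.restrict_restrict (hω hA)]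
    set s : Set Ω := ω ⁻¹' A ∩ {a | ∀ i ≤ n, X i a = x i} with hs
    have hsm : MeasurableSet s := (hω hA).inter (measurableSet_initial hX n x)
    have hspast : MeasurableSet[past ω X n] s := measurableSet_past_initial n x hA
    set R : Set Ω := {a | X (n + 1) a = X n a + 1} with hR
    have hRm : MeasurableSet R := by
      have : Measurable (fun a => X (n + 1) a - X n a) := (hX (n + 1)).sub (hX n)
      have h2 : R = (fun a => X (n + 1) a - X n a) ⁻¹' {1} := by
        ext a
        simp only [hR, Set.mem_ofPred_eq, Set.mem_preimage, Set.mem_singleton_iff]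
        omega
      rw [h2]
      exact this (measurableSet_singleton _)
    -- the conditional probability formula on `s`
    have hkey : μ (s ∩ R) = ∫⁻ a in s, ENNReal.ofReal (ω a (x n) (visits x n) : ℝ) ∂μ := by
      have h1 := setIntegral_condExp (past_le hω hX n) (f := R.indicator (fun _ => (1 : ℝ)))
        (μ := μ) ((integrable_const (1 : ℝ)).indicator hRm) hspast
      have h2 : ∫ a in s, (μ[R.indicator (fun _ => (1 : ℝ)) | past ω X n]) a ∂μ =
          ∫ a in s, (ω a (x n) (visits x n) : ℝ) ∂μ := by
        apply setIntegral_congr_ae hsm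
        filter_upwards [h.jump n] with a ha has
        rw [ha]
        have e1 : X n a = x n := has.2 n le_rfl
        have e2 : visits (fun i => X i a) n = visits x n := visits_congr has.2
        rw [e1, e2]
      rw [h2, setIntegral_indicator hRm] at h1
      have h3 : ENNReal.ofReal (∫ a in s, (ω a (x n) (visits x n) : ℝ) ∂μ) =
          ∫⁻ a in s, ENNReal.ofReal (ω a (x n) (visits x n) : ℝ) ∂μ := by
        apply ofReal_integral_eq_lintegral_ofReal
        · apply Integrable.integrableOn
          apply Integrable.of_bound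
            ((measurable_subtype_coe.comp ((measurable_cookie _ _).comp hω)).aestronglyMeasurable) 1
          exact ae_of_all _ (fun a => by
            simp only [Function.comp_apply]
            rw [Real.norm_eq_abs, abs_of_nonneg (ω a (x n) (visits x n)).2.1]
            exact (ω a (x n) (visits x n)).2.2)
        · exact ae_of_all _ fun a => (ω a (x n) (visits x n)).2.1
      rw [← h3, h1]
      simp
    have hcard : ω ⁻¹' A ∩ {a | ∀ i ≤ n + 1, X i a = x i} = s ∩ {a | X (n + 1) a = x (n + 1)} := by
      ext a
      simp only [hs, Set.mem_inter_iff, Set.mem_preimage, Set.mem_ofPred_eq]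
      constructor
      · rintro ⟨h1, h2⟩
        exact ⟨⟨h1, fun i hi => h2 i (by omega)⟩, h2 (n + 1) le_rfl⟩
      · rintro ⟨⟨h1, h2⟩, h3⟩
        refine ⟨h1, fun i hi => ?_⟩
        rcases Nat.lt_or_ge i (n + 1) with h4 | h4
        · exact h2 i (by omega)
        · obtain rfl : i = n + 1 := by omega
          exact h3
    rw [hcard]
    by_cases hd1 : x (n + 1) - x n = 1
    · have : s ∩ {a | X (n + 1) a = x (n + 1)} = s ∩ R := by
        ext a
        simp only [Set.mem_inter_iff, Set.mem_ofPred_eq, hR, and_congr_right_iff]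
        intro ha
        rw [ha.2 n le_rfl]
        constructor <;> intro h' <;> omega
      rw [this, hkey]
      simp only [stepW, hd1, if_true]
    · by_cases hd2 : x (n + 1) - x n = -1
      · have h1 : μ (s ∩ {a | X (n + 1) a = x (n + 1)}) = μ (s \ R) := by
          apply measure_congr
          filter_upwards [h.step n] with a ha
          apply propext
          show (a ∈ s ∩ {a | X (n + 1) a = x (n + 1)}) ↔ a ∈ s \ R
          simp only [Set.mem_inter_iff, Set.mem_ofPred_eq, hR, Set.mem_sdiff, and_congr_right_iff]
          intro has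
          rw [has.2 n le_rfl] at ha ⊢
          constructor <;> intro h' <;> omega
        have h2 : μ (s ∩ R) + μ (s \ R) = μ s := measure_inter_add_sdiff s hRm
        have h3 : ∫⁻ a in s, ENNReal.ofReal (ω a (x n) (visits x n) : ℝ) ∂μ +
            ∫⁻ a in s, ENNReal.ofReal (1 - (ω a (x n) (visits x n) : ℝ)) ∂μ = μ s := by
          rw [← lintegral_add_left]
          · have : ∀ a, ENNReal.ofReal (ω a (x n) (visits x n) : ℝ) +
                ENNReal.ofReal (1 - (ω a (x n) (visits x n) : ℝ)) = 1 := by
              intro a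
              rw [← ENNReal.ofReal_add (ω a (x n) (visits x n)).2.1
                (by linarith [(ω a (x n) (visits x n)).2.2])]
              simp
            simp [this]
          · exact ENNReal.measurable_ofReal.comp
              (measurable_subtype_coe.comp ((measurable_cookie _ _).comp hω))
        rw [h1]
        have hd1' : ¬ ((-1 : ℤ) = 1) := by norm_num
        simp only [stepW, hd2, if_neg hd1', if_true]
        rw [hkey] at h2
        have hfin : ∫⁻ a in s, ENNReal.ofReal (ω a (x n) (visits x n) : ℝ) ∂μ ≠ ∞ := by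
          rw [← hkey]; exact measure_ne_top _ _
        exact (ENNReal.add_right_inj hfin).1 (h2.trans h3.symm)
      · simp only [stepW, if_neg hd1, if_neg hd2, lintegral_zero]
        have : ∀ᵐ a ∂μ, ¬ (a ∈ s ∩ {a | X (n + 1) a = x (n + 1)}) := by
          filter_upwards [h.step n] with a ha
          rintro ⟨h1, h2⟩
          rw [Set.mem_ofPred_eq] at h2
          rw [h1.2 n le_rfl, h2] at ha
          omega
        have h0 := ae_iff.1 this
        simp only [not_not] at h0
        exact h0


theorem FDD.measure_initial (hω : Measurable ω) (h : FDD P μ ω X)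
    (n : ℕ) (x : ℕ → ℤ) : μ {a | ∀ i ≤ n, X i a = x i} = ∫⁻ w, pathW x n w ∂P := by
  have h1 : (μ.restrict {a | ∀ i ≤ n, X i a = x i}).map ω Set.univ =
      P.withDensity (pathW x n) Set.univ := by rw [h n x]
  rw [Measure.map_apply hω .univ, Measure.restrict_apply (hω .univ), withDensity_apply _ .univ,
    Measure.restrict_univ, Set.preimage_univ, Set.univ_inter] at h1
  exact h1

/-- The law of the path is determined by the law of the environment. -/
theorem FDD.law_unique {Ω' : Type*} [MeasurableSpace Ω'] {μ' : Measure Ω'} {ω' : Ω' → Env}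
    {X' : ℕ → Ω' → ℤ} [IsProbabilityMeasure μ] [IsProbabilityMeasure μ']
    (hω : Measurable ω) (hω' : Measurable ω') (hX : ∀ n, Measurable (X n))
    (hX' : ∀ n, Measurable (X' n)) (h : FDD P μ ω X) (h' : FDD P μ' ω' X') :
    μ.map (fun a n => X n a) = μ'.map (fun a n => X' n a) := by
  have hΨ : Measurable (fun a n => X n a) := measurable_pi_lambda _ hX
  have hΨ' : Measurable (fun a n => X' n a) := measurable_pi_lambda _ hX'
  set ν := μ.map (fun a n => X n a) with hν
  set ν' := μ'.map (fun a n => X' n a) with hν'
  have : IsProbabilityMeasure ν := Measure.isProbabilityMeasure_map hΨ.aemeasurable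
  have : IsProbabilityMeasure ν' := Measure.isProbabilityMeasure_map hΨ'.aemeasurable
  clear_value ν ν'
  set F : (I : Finset ℕ) → Measure ((i : I) → ℤ) := fun I => ν'.map I.restrict with hF
  have hproj : IsProjectiveMeasureFamily (α := fun _ : ℕ => ℤ) F := by
    intro I J hJI
    simp only [hF]
    rw [Measure.map_map (by fun_prop) (by fun_prop)]
    rfl
  have h1 : IsProjectiveLimit (α := fun _ : ℕ => ℤ) ν' F := fun I => rfl
  have h2 : IsProjectiveLimit (α := fun _ : ℕ => ℤ) ν F := by
    rw [isProjectiveLimit_nat_iff hproj]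
    intro n
    apply Measure.ext_of_singleton
    intro v
    simp only [hF]
    rw [Measure.map_apply (by fun_prop) (measurableSet_singleton _),
      Measure.map_apply (by fun_prop) (measurableSet_singleton _)]
    set x : ℕ → ℤ := fun i => if h : i ∈ Finset.Iic n then v ⟨i, h⟩ else 0 with hx
    have e : ∀ y : ℕ → ℤ, (y ∈ Preorder.frestrictLe (π := fun _ => ℤ) n ⁻¹' {v}) ↔
        ∀ i ≤ n, y i = x i := by
      intro y
      simp only [Set.mem_preimage, Set.mem_singleton_iff, funext_iff, Preorder.frestrictLe_apply,
        Subtype.forall, hx]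
      constructor
      · intro h i hi
        have hi' : i ∈ Finset.Iic n := Finset.mem_Iic.2 hi
        rw [dif_pos hi']
        exact h i hi'
      · intro h i hi
        have := h i (Finset.mem_Iic.1 hi)
        rw [dif_pos hi] at this
        exact this
    have e1 : (Preorder.frestrictLe (π := fun _ => ℤ) n ⁻¹' {v}) = {y | ∀ i ≤ n, y i = x i} := by
      ext y; exact e y
    have e2 : ((Finset.Iic n).restrict ⁻¹' {v} : Set (ℕ → ℤ)) = {y | ∀ i ≤ n, y i = x i} := e1
    rw [e1, e2]
    have hms : MeasurableSet {y : ℕ → ℤ | ∀ i ≤ n, y i = x i} :=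
      measurableSet_initial (X := fun i (y : ℕ → ℤ) => y i) (fun i => measurable_pi_apply i) n x
    rw [hν, hν', Measure.map_apply hΨ hms, Measure.map_apply hΨ' hms]
    exact (h.measure_initial hω n x).trans (h'.measure_initial hω' n x).symm
  exact h2.unique h1


/-- extension of a finite path -/
def extend {n : ℕ} (v : Fin (n + 1) → ℤ) (i : ℕ) : ℤ := if h : i < n + 1 then v ⟨i, h⟩ else 0

theorem FDD.isExcitedWalk [IsProbabilityMeasure μ] (hω : Measurable ω)
    (hX : ∀ n, Measurable (X n)) (hlaw : μ.map ω = P) (hstart : ∀ᵐ a ∂μ, X 0 a = 0)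
    (hstep : ∀ n, ∀ᵐ a ∂μ, X (n + 1) a = X n a + 1 ∨ X (n + 1) a = X n a - 1)
    (h : FDD P μ ω X) : IsExcitedWalk P μ ω X := by
  refine ⟨hω, hX, hlaw, hstart, hstep, fun n => ?_⟩
  symm
  set R : Set Ω := {a | X (n + 1) a = X n a + 1} with hR
  have hRm : MeasurableSet R := by
    have : Measurable (fun a => X (n + 1) a - X n a) := (hX (n + 1)).sub (hX n)
    have h2 : R = (fun a => X (n + 1) a - X n a) ⁻¹' {1} := by
      ext a
      simp only [hR, Set.mem_ofPred_eq, Set.mem_preimage, Set.mem_singleton_iff]
      omega
    rw [h2]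
    exact this (measurableSet_singleton _)
  set Φ : Ω → Env × (Fin (n + 1) → ℤ) := fun a => (ω a, fun i : Fin (n + 1) => X i a) with hΦ
  have hΦm : Measurable Φ := hω.prodMk (measurable_pi_lambda _ fun i => hX i)
  set g : Ω → ℝ := fun a => (ω a (X n a) (visits (fun i => X i a) n) : ℝ) with hg
  set G : Env × (Fin (n + 1) → ℤ) → ℝ := fun q =>
    (q.1 (extend q.2 n) (visits (extend q.2) n) : ℝ) with hG
  have hGm : Measurable G := by
    apply measurable_from_prod_countable_left
    intro v
    exact measurable_subtype_coe.comp (measurable_cookie (extend v n) (visits (extend v) n))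
  have hgG : g = G ∘ Φ := by
    funext a
    simp only [hg, hG, hΦ, Function.comp_apply]
    have e1 : ∀ i ≤ n, X i a = extend (fun i : Fin (n + 1) => X i a) i := by
      intro i hi
      unfold extend
      rw [dif_pos (Nat.lt_succ_iff.2 hi)]
    rw [visits_congr e1, ← e1 n le_rfl]
  have hgm : Measurable[past ω X n] g := by
    rw [hgG]
    exact hGm.comp (comap_measurable Φ)
  have hgm' : Measurable g := by
    rw [hgG]; exact hGm.comp hΦm
  have hgint : Integrable g μ := by
    apply Integrable.of_bound hgm'.aestronglyMeasurable 1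
    exact ae_of_all _ (fun a => by
      simp only [hg]
      rw [Real.norm_eq_abs, abs_of_nonneg (ω a _ _).2.1]
      exact (ω a _ _).2.2)
  have hfint : Integrable (R.indicator (fun _ => (1 : ℝ))) μ :=
    (integrable_const (1 : ℝ)).indicator hRm
  refine ae_eq_condExp_of_forall_setIntegral_eq (past_le hω hX n) hfint
    (fun s _ _ => hgint.integrableOn) ?_ hgm.stronglyMeasurable.aestronglyMeasurable
  rintro s ⟨C, hC, rfl⟩ -
  set Cv : (Fin (n + 1) → ℤ) → Set Env := fun v => {w | (w, v) ∈ C} with hCv
  have hCvm : ∀ v, MeasurableSet (Cv v) := fun v => measurable_prodMk_right hC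
  set sv : (Fin (n + 1) → ℤ) → Set Ω := fun v =>
    ω ⁻¹' (Cv v) ∩ {a | ∀ i ≤ n, X i a = extend v i} with hsv
  have hsvm : ∀ v, MeasurableSet (sv v) := fun v =>
    (hω (hCvm v)).inter (measurableSet_initial hX n _)
  have hU : Φ ⁻¹' C = ⋃ v, sv v := by
    ext a
    simp only [Set.mem_preimage, Set.mem_iUnion, hsv, hCv, Set.mem_inter_iff, Set.mem_ofPred_eq]
    constructor
    · intro ha
      refine ⟨fun i => X i a, ha, fun i hi => ?_⟩
      unfold extend
      rw [dif_pos (Nat.lt_succ_iff.2 hi)]
    · rintro ⟨v, hv1, hv2⟩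
      have : (fun i : Fin (n + 1) => X i a) = v := by
        funext i
        have := hv2 i (Nat.lt_succ_iff.1 i.2)
        unfold extend at this
        rw [dif_pos i.2] at this
        exact this
      show (ω a, fun i : Fin (n + 1) => X i a) ∈ C
      rw [this]; exact hv1
  have hdisj : Pairwise (Function.onFun Disjoint sv) := by
    intro v v' hvv'
    rw [Function.onFun, Set.disjoint_left]
    rintro a ⟨-, ha⟩ ⟨-, ha'⟩
    apply hvv'
    funext i
    have h1 := ha i (Nat.lt_succ_iff.1 i.2)
    have h2 := ha' i (Nat.lt_succ_iff.1 i.2)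
    unfold extend at h1 h2
    rw [dif_pos i.2] at h1 h2
    exact h1.symm.trans h2
  rw [hU, integral_iUnion hsvm hdisj hgint.integrableOn,
    integral_iUnion hsvm hdisj hfint.integrableOn]
  congr 1
  funext v
  -- the elementary formula
  set x : ℕ → ℤ := extend v with hx
  set x' : ℕ → ℤ := Function.update x (n + 1) (x n + 1) with hx'
  have hxx' : ∀ i ≤ n, x' i = x i := by
    intro i hi
    rw [hx', Function.update_of_ne (by omega)]
  rw [setIntegral_indicator hRm]
  simp only [integral_const, smul_eq_mul, mul_one, Measure.restrict_apply .univ, Set.univ_inter,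
    measureReal_def]
  have h1 : ∫ a in sv v, g a ∂μ = ∫ a in sv v, (ω a (x n) (visits x n) : ℝ) ∂μ := by
    apply setIntegral_congr_fun (hsvm v)
    intro a ha
    simp only [hg]
    rw [ha.2 n le_rfl, visits_congr ha.2]
  rw [h1]
  have hmeas : Measurable (fun a => (ω a (x n) (visits x n) : ℝ)) :=
    measurable_subtype_coe.comp ((measurable_cookie _ _).comp hω)
  rw [integral_eq_lintegral_of_nonneg_ae (ae_of_all _ fun a => (ω a (x n) (visits x n)).2.1)
    hmeas.aestronglyMeasurable]
  congr 1
  -- both sides are integrals over the environments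
  have e1 : μ (sv v ∩ R) = ∫⁻ w in Cv v, pathW x' (n + 1) w ∂P := by
    rw [← withDensity_apply _ (hCvm v), ← h (n + 1) x', Measure.map_apply hω (hCvm v),
      Measure.restrict_apply (hω (hCvm v))]
    congr 1
    ext a
    simp only [hsv, hR, Set.mem_inter_iff, Set.mem_preimage, Set.mem_ofPred_eq]
    constructor
    · rintro ⟨⟨h2, h3⟩, h4⟩
      refine ⟨h2, fun i hi => ?_⟩
      rcases Nat.lt_or_ge i (n + 1) with h5 | h5
      · rw [hxx' i (by omega), h3 i (by omega)]
      · obtain rfl : i = n + 1 := by omega
        rw [h4, h3 n le_rfl, hx', Function.update_self]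
    · rintro ⟨h2, h3⟩
      refine ⟨⟨h2, fun i hi => ?_⟩, ?_⟩
      · rw [h3 i (by omega), hxx' i hi]
      · rw [h3 (n + 1) le_rfl, h3 n (by omega), hxx' n le_rfl, hx', Function.update_self]
  have e2 : ∫⁻ a in sv v, ENNReal.ofReal (ω a (x n) (visits x n) : ℝ) ∂μ =
      ∫⁻ w in Cv v, ENNReal.ofReal (w (x n) (visits x n) : ℝ) * pathW x n w ∂P := by
    have hm : Measurable (fun w : Env => ENNReal.ofReal (w (x n) (visits x n) : ℝ)) :=
      ENNReal.measurable_ofReal.comp (measurable_subtype_coe.comp (measurable_cookie _ _))
    have e3 : ∫⁻ w in Cv v, ENNReal.ofReal (w (x n) (visits x n) : ℝ)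
        ∂((μ.restrict {a | ∀ i ≤ n, X i a = x i}).map ω) =
        ∫⁻ a in sv v, ENNReal.ofReal (ω a (x n) (visits x n) : ℝ) ∂μ := by
      rw [Measure.restrict_map hω (hCvm v), lintegral_map hm hω,
        Measure.restrict_restrict (hω (hCvm v))]
    rw [← e3, h n x, restrict_withDensity (hCvm v), lintegral_withDensity_eq_lintegral_mul _
      (measurable_pathW x n) hm]
    apply lintegral_congr
    intro w
    simp only [Pi.mul_apply]
    ring
  rw [e1, e2]
  apply lintegral_congr
  intro w
  rw [pathW_succ]
  have e4 : pathW x' n w = pathW x n w := by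
    unfold pathW
    rw [hxx' 0 (by omega)]
    congr 1
    apply Finset.prod_congr rfl
    intro i hi
    have hi' := Finset.mem_range.1 hi
    rw [hxx' i (by omega), hxx' (i + 1) (by omega),
      visits_congr (fun k hk => hxx' k (by omega))]
  have e5 : x' (n + 1) - x' n = 1 := by
    rw [hxx' n le_rfl, hx', Function.update_self]; ring
  rw [e4, e5, hxx' n le_rfl, visits_congr hxx']
  simp only [stepW, if_true]
  ring

end Pool.Agent.Work.MP_204ba2_pr
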