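import Mathlib
import Pool.Agent.Work.MP_204ba2_pr.OneSided
import Pool.Agent.Work.MP_204ba2_pr.Transfer

/-!
The reference process: an explicit construction of the excited random walk for the environments
whose stacks start with a run of cookies `1` or a run of cookies `0`, followed by cookies `1/2`.
-/

namespace Pool.Agent.Work.MP_204ba2_pr

open MeasureTheory ProbabilityTheory Filter
open scoped ENNReal

/-- `1/2` as an element of the unit interval -/
noncomputable def half : unitInterval := ⟨1 / 2, by norm_num, by norm_num⟩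

/-- the stack of type `z`: if `z > 0` it starts with `z` cookies `1`, if `z < 0` it starts with
`-z` cookies `0`, and all other cookies are `1/2`. -/
noncomputable def stack (z : ℤ) : ℕ → unitInterval := fun k =>
  if (k : ℤ) < z then 1 else if (k : ℤ) < - z then 0 else half

/-- environment given by the types of the stacks -/
noncomputable def envOf (z : ℤ → ℤ) : Env := fun y => stack (z y)

/-- law of the environment -/
noncomputable def envLaw (ζ : Measure ℤ) [IsProbabilityMeasure ζ] : Measure Env :=
  (Measure.infinitePi (fun _ : ℤ => ζ)).map envOf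

theorem measurable_stack : Measurable stack := measurable_of_countable _

theorem measurable_envOf : Measurable envOf :=
  measurable_pi_lambda _ fun y => measurable_stack.comp (measurable_pi_apply y)

instance (ζ : Measure ℤ) [IsProbabilityMeasure ζ] : IsProbabilityMeasure (envLaw ζ) :=
  Measure.isProbabilityMeasure_map measurable_envOf.aemeasurable

theorem envLaw_eq (ζ : Measure ℤ) [IsProbabilityMeasure ζ] :
    envLaw ζ = Measure.infinitePi (fun _ : ℤ => ζ.map stack) :=
  Measure.infinitePi_map_pi (fun _ : ℤ => ζ) (f := fun _ => stack) (fun _ => measurable_stack)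

theorem stacksIID_envLaw (ζ : Measure ℤ) [IsProbabilityMeasure ζ] : StacksIID (envLaw ζ) := by
  have : IsProbabilityMeasure (ζ.map stack) :=
    Measure.isProbabilityMeasure_map measurable_stack.aemeasurable
  rw [envLaw_eq]
  constructor
  · exact iIndepFun_infinitePi (P := fun _ : ℤ => ζ.map stack) (X := fun _ s => s)
      (fun _ => measurable_id)
  · intro x
    refine ⟨(measurable_pi_apply x).aemeasurable, (measurable_pi_apply 0).aemeasurable, ?_⟩
    exact (Measure.infinitePi_map_eval (fun _ : ℤ => ζ.map stack) x).trans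
      (Measure.infinitePi_map_eval (fun _ : ℤ => ζ.map stack) 0).symm

theorem envLaw_site (ζ : Measure ℤ) [IsProbabilityMeasure ζ] (x : ℤ) :
    (envLaw ζ).map (fun ω : Env => ω x) = ζ.map stack := by
  have : IsProbabilityMeasure (ζ.map stack) :=
    Measure.isProbabilityMeasure_map measurable_stack.aemeasurable
  rw [envLaw_eq]
  exact Measure.infinitePi_map_eval (fun _ : ℤ => ζ.map stack) x

theorem weaklyElliptic_envLaw (ζ : Measure ℤ) [IsProbabilityMeasure ζ] (h0 : 0 < ζ {0}) :
    WeaklyElliptic (envLaw ζ) := by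
  have key : ∀ (x : ℤ) (S : Set (ℕ → unitInterval)), MeasurableSet S → stack 0 ∈ S →
      0 < envLaw ζ {ω | ω x ∈ S} := by
    intro x S hS h
    have h1 : envLaw ζ {ω | ω x ∈ S} = (envLaw ζ).map (fun ω : Env => ω x) S :=
      (Measure.map_apply (measurable_pi_apply x) hS).symm
    rw [h1, envLaw_site, Measure.map_apply measurable_stack hS]
    refine lt_of_lt_of_le h0 (measure_mono ?_)
    intro z hz
    rw [Set.mem_singleton_iff] at hz
    rw [Set.mem_preimage, hz]; exact h
  have hs : ∀ k, stack 0 k = half := by
    intro k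
    unfold stack
    rw [if_neg (by omega), if_neg (by omega)]
  intro x
  constructor
  · apply key x {s | ∀ n, 0 < s n}
    · have : {s : ℕ → unitInterval | ∀ n, 0 < s n} = ⋂ n, (fun s => s n) ⁻¹' (Set.Ioi 0) := by
        ext s; simp
      rw [this]
      exact MeasurableSet.iInter fun n => measurable_pi_apply n measurableSet_Ioi
    · intro n
      rw [hs]
      show (0 : ℝ) < 1 / 2
      norm_num
  · apply key x {s | ∀ n, s n < 1}
    · have : {s : ℕ → unitInterval | ∀ n, s n < 1} = ⋂ n, (fun s => s n) ⁻¹' (Set.Iio 1) := by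
        ext s; simp
      rw [this]
      exact MeasurableSet.iInter fun n => measurable_pi_apply n measurableSet_Iio
    · intro n
      rw [hs]
      show (1 / 2 : ℝ) < 1
      norm_num

theorem tsum_pos_stack (z : ℤ) :
    ∑' i, ENNReal.ofReal (2 * (stack z i : ℝ) - 1) = (z.toNat : ℝ≥0∞) := by
  have h : ∀ i, ENNReal.ofReal (2 * (stack z i : ℝ) - 1) =
      if i ∈ Finset.range z.toNat then 1 else 0 := by
    intro i
    unfold stack
    by_cases h1 : (i : ℤ) < z
    · rw [if_pos h1, if_pos (Finset.mem_range.2 (by omega))]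
      norm_num
    · have h3 : ¬ i ∈ Finset.range z.toNat := by rw [Finset.mem_range]; omega
      rw [if_neg h1, if_neg h3]
      split_ifs
      · norm_num
      · show ENNReal.ofReal (2 * (1 / 2) - 1) = 0
        norm_num
  simp_rw [h]
  rw [tsum_eq_sum (s := Finset.range z.toNat) (fun b hb => if_neg hb)]
  rw [Finset.sum_congr rfl (fun i hi => if_pos hi)]
  simp

theorem tsum_neg_stack (z : ℤ) :
    ∑' i, ENNReal.ofReal (1 - 2 * (stack z i : ℝ)) = ((-z).toNat : ℝ≥0∞) := by
  have h : ∀ i, ENNReal.ofReal (1 - 2 * (stack z i : ℝ)) =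
      if i ∈ Finset.range (-z).toNat then 1 else 0 := by
    intro i
    unfold stack
    by_cases h1 : (i : ℤ) < z
    · rw [if_pos h1, if_neg (fun h => by have := Finset.mem_range.1 h; omega)]
      norm_num
    · rw [if_neg h1]
      by_cases h2 : (i : ℤ) < -z
      · rw [if_pos h2, if_pos (Finset.mem_range.2 (by omega))]
        norm_num
      · rw [if_neg h2, if_neg (fun h => h2 (by have := Finset.mem_range.1 h; omega))]
        show ENNReal.ofReal (1 - 2 * (1 / 2)) = 0
        norm_num
  simp_rw [h]
  rw [tsum_eq_sum (s := Finset.range (-z).toNat) (fun b hb => if_neg hb)]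
  rw [Finset.sum_congr rfl (fun i hi => if_pos hi)]
  simp

theorem posDrift_envLaw (ζ : Measure ℤ) [IsProbabilityMeasure ζ] :
    posDrift (envLaw ζ) = ∫⁻ z, (z.toNat : ℝ≥0∞) ∂ζ := by
  unfold posDrift
  have hm : Measurable (fun s : ℕ → unitInterval =>
      ∑' i, ENNReal.ofReal (2 * (s i : ℝ) - 1)) := by
    apply Measurable.tsum
    intro i
    apply ENNReal.measurable_ofReal.comp
    exact (measurable_const.mul (measurable_subtype_coe.comp (measurable_pi_apply i))).sub
      measurable_const
  have h1 : ∫⁻ ω : Env, ∑' i, ENNReal.ofReal (2 * (ω 0 i : ℝ) - 1) ∂(envLaw ζ) =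
      ∫⁻ s, ∑' i, ENNReal.ofReal (2 * (s i : ℝ) - 1) ∂((envLaw ζ).map (fun ω : Env => ω 0)) :=
    (lintegral_map hm (measurable_pi_apply 0)).symm
  rw [h1, envLaw_site, lintegral_map hm measurable_stack]
  simp_rw [tsum_pos_stack]

theorem negDrift_envLaw (ζ : Measure ℤ) [IsProbabilityMeasure ζ] :
    negDrift (envLaw ζ) = ∫⁻ z, ((-z).toNat : ℝ≥0∞) ∂ζ := by
  unfold negDrift
  have hm : Measurable (fun s : ℕ → unitInterval =>
      ∑' i, ENNReal.ofReal (1 - 2 * (s i : ℝ))) := by
    apply Measurable.tsum
    intro i
    apply ENNReal.measurable_ofReal.comp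
    exact measurable_const.sub
      (measurable_const.mul (measurable_subtype_coe.comp (measurable_pi_apply i)))
  have h1 : ∫⁻ ω : Env, ∑' i, ENNReal.ofReal (1 - 2 * (ω 0 i : ℝ)) ∂(envLaw ζ) =
      ∫⁻ s, ∑' i, ENNReal.ofReal (1 - 2 * (s i : ℝ)) ∂((envLaw ζ).map (fun ω : Env => ω 0)) :=
    (lintegral_map hm (measurable_pi_apply 0)).symm
  rw [h1, envLaw_site, lintegral_map hm measurable_stack]
  simp_rw [tsum_neg_stack]

/-! ### The reference walk -/

/-- arrow as a function of the coin used -/
def arr (z : ℤ → ℤ) (q : ℤ × ℕ) (b : Bool) : Bool :=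
  if (q.2 : ℤ) < z q.1 then true else if (q.2 : ℤ) < - z q.1 then false else b

theorem arrow_eq_arr (z : ℤ → ℤ) (η : ℤ × ℕ → Bool) (y : ℤ) (k : ℕ) :
    arrow z η y k = arr z (y, k) (η (y, k)) := rfl

theorem walk_iff (a : ℤ → ℕ → Bool) (x : ℕ → ℤ) (n : ℕ) :
    (∀ i ≤ n, walk a i = x i) ↔
      x 0 = 0 ∧ ∀ i < n, x (i + 1) = if a (x i) (visits x i) then x i + 1 else x i - 1 := by
  induction n with
  | zero =>
    constructor
    · intro h
      exact ⟨(h 0 le_rfl).symm.trans (follows_walk a).1, fun i hi => absurd hi (by omega)⟩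
    · rintro ⟨h, -⟩ i hi
      obtain rfl : i = 0 := by omega
      rw [h]; exact (follows_walk a).1
  | succ n ih =>
    constructor
    · intro h
      obtain ⟨h1, h2⟩ := ih.1 (fun i hi => h i (by omega))
      refine ⟨h1, fun i hi => ?_⟩
      rcases Nat.lt_or_ge i n with h3 | h3
      · exact h2 i h3
      · obtain rfl : i = n := by omega
        rw [← h (i + 1) le_rfl, (follows_walk a).2 i, h i (by omega),
          visits_congr (fun k hk => h k (by omega))]
    · rintro ⟨h1, h2⟩ i hi
      have h3 := ih.2 ⟨h1, fun i hi => h2 i (by omega)⟩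
      rcases Nat.lt_or_ge i (n + 1) with h4 | h4
      · exact h3 i (by omega)
      · obtain rfl : i = n + 1 := by omega
        rw [h2 n (by omega), (follows_walk a).2 n, h3 n le_rfl,
          visits_congr h3]

theorem visits_lt {x : ℕ → ℤ} {i j : ℕ} (hij : i < j) (h : x i = x j) :
    visits x i < visits x j := by
  unfold visits
  apply Finset.card_lt_card
  rw [Finset.ssubset_iff_of_subset]
  · refine ⟨i, ?_, ?_⟩
    · rw [Finset.mem_filter, Finset.mem_range]; exact ⟨hij, h⟩
    · simp
  · intro k hk
    rw [Finset.mem_filter, Finset.mem_range] at hk ⊢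
    exact ⟨by omega, hk.2.trans h⟩

theorem index_injective (x : ℕ → ℤ) : Function.Injective (fun i => (x i, visits x i)) := by
  intro i j h
  simp only [Prod.mk.injEq] at h
  rcases lt_trichotomy i j with h1 | h1 | h1
  · have := visits_lt h1 h.1; omega
  · exact h1
  · have := visits_lt h1 h.1.symm; omega

theorem coin_arr (z : ℤ → ℤ) (y : ℤ) (k : ℕ) (w : ℤ) :
    coin {b | w = if arr z (y, k) b then y + 1 else y - 1} = stepW (envOf z y k) (w - y) := by
  unfold arr envOf stack stepW
  simp only
  by_cases h1 : (k : ℤ) < z y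
  · rw [if_pos h1]
    simp only [if_pos h1, if_true]
    by_cases h2 : w = y + 1
    · have : {b : Bool | w = y + 1} = Set.univ := by simp [h2]
      rw [this, measure_univ, if_pos (by omega)]
      simp
    · have : {b : Bool | w = y + 1} = ∅ := by simp [h2]
      rw [this, measure_empty, if_neg (by omega)]
      split_ifs <;> simp
  · simp only [if_neg h1]
    by_cases h3 : (k : ℤ) < - z y
    · simp only [if_pos h3, Bool.false_eq_true, if_false]
      by_cases h2 : w = y - 1
      · have : {b : Bool | w = y - 1} = Set.univ := by simp [h2]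
        rw [this, measure_univ, if_neg (by omega), if_pos (by omega)]
        simp
      · have : {b : Bool | w = y - 1} = ∅ := by simp [h2]
        rw [this, measure_empty]
        split_ifs with h4 h5
        · simp
        · exact absurd h5 (by omega)
        · rfl
    · simp only [if_neg h3]
      by_cases h2 : w = y + 1
      · have : {b : Bool | w = if b = true then y + 1 else y - 1} = {true} := by
          ext b
          cases b <;> simp [h2]
          omega
        rw [this, coin_singleton, if_pos (by omega)]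
        show (2⁻¹ : ℝ≥0∞) = ENNReal.ofReal (1 / 2)
        rw [one_div, ENNReal.ofReal_inv_of_pos (by norm_num)]
        simp
      · by_cases h4 : w = y - 1
        · have : {b : Bool | w = if b = true then y + 1 else y - 1} = {false} := by
            ext b
            cases b <;> simp [h4]
            omega
          rw [this, coin_singleton, if_neg (by omega), if_pos (by omega)]
          show (2⁻¹ : ℝ≥0∞) = ENNReal.ofReal (1 - 1 / 2)
          rw [show (1 : ℝ) - 1 / 2 = 2⁻¹ by norm_num, ENNReal.ofReal_inv_of_pos (by norm_num)]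
          simp
        · have : {b : Bool | w = if b = true then y + 1 else y - 1} = ∅ := by
            ext b
            cases b <;> simp [h2, h4]
          rw [this, measure_empty, if_neg (by omega), if_neg (by omega)]

theorem coins_walk (z : ℤ → ℤ) (x : ℕ → ℤ) (n : ℕ) :
    coins {η | ∀ i ≤ n, walk (arrow z η) i = x i} = pathW x n (envOf z) := by
  classical
  simp_rw [walk_iff]
  unfold pathW
  by_cases h0 : x 0 = 0
  · rw [if_pos h0, one_mul]
    set S : Finset (ℤ × ℕ) := (Finset.range n).image (fun i => (x i, visits x i)) with hS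
    set T : ℤ × ℕ → Set Bool := fun q =>
      {b | ∀ i < n, (x i, visits x i) = q →
        x (i + 1) = if arr z q b then x i + 1 else x i - 1} with hT
    have hset : {η : ℤ × ℕ → Bool | x 0 = 0 ∧ ∀ i < n, x (i + 1) =
        if arrow z η (x i) (visits x i) then x i + 1 else x i - 1} = Set.pi (S : Set (ℤ × ℕ)) T := by
      ext η
      simp only [Set.mem_ofPred_eq, Set.mem_pi, hS, hT, Finset.coe_image, Set.mem_image,
        Finset.coe_range, Set.mem_Iio]
      constructor
      · rintro ⟨-, h⟩ q _ i hi hq
        rw [← hq]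
        exact h i hi
      · intro h
        refine ⟨h0, fun i hi => ?_⟩
        exact h (x i, visits x i) ⟨i, hi, rfl⟩ i hi rfl
    rw [hset]
    unfold coins
    rw [Measure.infinitePi_pi _ (fun _ _ => by trivial), hS,
      Finset.prod_image (fun a _ b _ hab => index_injective x hab)]
    apply Finset.prod_congr rfl
    intro i hi
    rw [← coin_arr z (x i) (visits x i) (x (i + 1))]
    congr 1
    ext b
    simp only [hT, Set.mem_ofPred_eq]
    constructor
    · intro h
      exact h i (Finset.mem_range.1 hi) rfl
    · intro h j _ hjq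
      obtain rfl := index_injective x hjq
      exact h
  · rw [if_neg h0, zero_mul]
    have : {η : ℤ × ℕ → Bool | x 0 = 0 ∧ ∀ i < n, x (i + 1) =
        if arrow z η (x i) (visits x i) then x i + 1 else x i - 1} = ∅ := by
      ext η; simp [h0]
    rw [this, measure_empty]

theorem measurable_arrow (y : ℤ) (k : ℕ) :
    Measurable (fun p : (ℤ → ℤ) × (ℤ × ℕ → Bool) => arrow p.1 p.2 y k) := by
  have : (fun p : (ℤ → ℤ) × (ℤ × ℕ → Bool) => arrow p.1 p.2 y k) =
      (fun r : ℤ × Bool => if (k : ℤ) < r.1 then true else if (k : ℤ) < - r.1 then false else r.2) ∘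
      (fun p : (ℤ → ℤ) × (ℤ × ℕ → Bool) => (p.1 y, p.2 (y, k))) := rfl
  rw [this]
  apply (measurable_of_countable _).comp
  exact ((measurable_pi_apply y).comp measurable_fst).prodMk
    ((measurable_pi_apply (y, k)).comp measurable_snd)

theorem measurable_walk (n : ℕ) :
    Measurable (fun p : (ℤ → ℤ) × (ℤ × ℕ → Bool) => walk (arrow p.1 p.2) n) := by
  have key : Measurable (fun p : (ℤ → ℤ) × (ℤ × ℕ → Bool) => (walkState (arrow p.1 p.2) n).1) ∧
      ∀ y, Measurable (fun p : (ℤ → ℤ) × (ℤ × ℕ → Bool) => (walkState (arrow p.1 p.2) n).2 y) := by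
    induction n with
    | zero => exact ⟨measurable_const, fun _ => measurable_const⟩
    | succ n ih =>
      obtain ⟨h1, h2⟩ := ih
      have h3 : Measurable (fun r : ((ℤ → ℤ) × (ℤ × ℕ → Bool)) × ℤ =>
          (walkState (arrow r.1.1 r.1.2) n).2 r.2) :=
        measurable_from_prod_countable_left fun y => h2 y
      have h4 : Measurable (fun p : (ℤ → ℤ) × (ℤ × ℕ → Bool) =>
          (walkState (arrow p.1 p.2) n).2 (walkState (arrow p.1 p.2) n).1) :=
        h3.comp (measurable_id.prodMk h1)
      have h5 : Measurable (fun r : ((ℤ → ℤ) × (ℤ × ℕ → Bool)) × (ℤ × ℕ) =>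
          arrow r.1.1 r.1.2 r.2.1 r.2.2) :=
        measurable_from_prod_countable_left fun q => measurable_arrow q.1 q.2
      have h6 : Measurable (fun p : (ℤ → ℤ) × (ℤ × ℕ → Bool) =>
          arrow p.1 p.2 (walkState (arrow p.1 p.2) n).1
            ((walkState (arrow p.1 p.2) n).2 (walkState (arrow p.1 p.2) n).1)) :=
        h5.comp (measurable_id.prodMk (h1.prodMk h4))
      constructor
      · have h7 : Measurable (fun r : Bool × ℤ => if r.1 then r.2 + 1 else r.2 - 1) :=
          measurable_of_countable _
        exact h7.comp (h6.prodMk h1)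
      · intro y
        have h8 : Measurable (fun r : (ℤ × ℕ) × ℕ => if y = r.1.1 then r.1.2 + 1 else r.2) :=
          measurable_of_countable _
        have h9 : (fun p : (ℤ → ℤ) × (ℤ × ℕ → Bool) => (walkState (arrow p.1 p.2) (n + 1)).2 y) =
            fun p => if y = (walkState (arrow p.1 p.2) n).1 then
              (walkState (arrow p.1 p.2) n).2 (walkState (arrow p.1 p.2) n).1 + 1 else
              (walkState (arrow p.1 p.2) n).2 y := by
          funext p
          show Function.update (walkState (arrow p.1 p.2) n).2 (walkState (arrow p.1 p.2) n).1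
            ((walkState (arrow p.1 p.2) n).2 (walkState (arrow p.1 p.2) n).1 + 1) y = _
          rw [Function.update_apply]
        rw [h9]
        exact h8.comp ((h1.prodMk h4).prodMk (h2 y))
  exact key.1

theorem fdd_base (ζ : Measure ℤ) [IsProbabilityMeasure ζ] :
    FDD (envLaw ζ) (base ζ) (fun p => envOf p.1) (fun n p => walk (arrow p.1 p.2) n) := by
  intro n x
  have hω : Measurable (fun p : (ℤ → ℤ) × (ℤ × ℕ → Bool) => envOf p.1) :=
    measurable_envOf.comp measurable_fst
  ext A hA
  rw [Measure.map_apply hω hA, Measure.restrict_apply (hω hA), withDensity_apply _ hA]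
  unfold envLaw
  rw [Measure.restrict_map measurable_envOf hA, lintegral_map (measurable_pathW x n) measurable_envOf]
  have hms : MeasurableSet ((fun p : (ℤ → ℤ) × (ℤ × ℕ → Bool) => envOf p.1) ⁻¹' A ∩
      {p | ∀ i ≤ n, walk (arrow p.1 p.2) i = x i}) :=
    (hω hA).inter (measurableSet_initial
      (X := fun n (p : (ℤ → ℤ) × (ℤ × ℕ → Bool)) => walk (arrow p.1 p.2) n) measurable_walk n x)
  unfold base
  rw [Measure.prod_apply hms, ← lintegral_indicator (measurable_envOf hA)]
  apply lintegral_congr
  intro z
  by_cases hz : envOf z ∈ A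
  · rw [Set.indicator_of_mem (by exact hz), ← coins_walk z x n]
    congr 1
    ext η
    simp [hz]
  · rw [Set.indicator_of_notMem (by exact hz)]
    have : Prod.mk z ⁻¹' ((fun p : (ℤ → ℤ) × (ℤ × ℕ → Bool) => envOf p.1) ⁻¹' A ∩
        {p | ∀ i ≤ n, walk (arrow p.1 p.2) i = x i}) = ∅ := by
      ext η
      simp [hz]
    rw [this, measure_empty]

/-- The reference process is an excited random walk. -/
theorem isExcitedWalk_base (ζ : Measure ℤ) [IsProbabilityMeasure ζ] :
    IsExcitedWalk (envLaw ζ) (base ζ) (fun p => envOf p.1) (fun n p => walk (arrow p.1 p.2) n) := by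
  have hω : Measurable (fun p : (ℤ → ℤ) × (ℤ × ℕ → Bool) => envOf p.1) :=
    measurable_envOf.comp measurable_fst
  apply (fdd_base ζ).isExcitedWalk hω measurable_walk
  · unfold base envLaw
    have : (fun p : (ℤ → ℤ) × (ℤ × ℕ → Bool) => envOf p.1) = envOf ∘ Prod.fst := rfl
    rw [this, ← Measure.map_map measurable_envOf measurable_fst]
    congr 1
    exact Measure.fst_prod
  · exact ae_of_all _ fun p => (follows_walk _).1
  · exact fun n => ae_of_all _ fun p => (follows_walk _).step n

/-- Every excited random walk in the environment `envLaw ζ` has zero speed, if `ζ` is heavy. -/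
theorem Heavy.speed_zero {ζ : Measure ℤ} [IsProbabilityMeasure ζ] (hζ : Heavy ζ)
    {Ω : Type*} [MeasurableSpace Ω] {μ : Measure Ω} [IsProbabilityMeasure μ]
    {ω : Ω → Env} {X : ℕ → Ω → ℤ} (h : IsExcitedWalk (envLaw ζ) μ ω X) :
    ∀ᵐ a ∂μ, Tendsto (fun n : ℕ => (X n a : ℝ) / n) atTop (nhds 0) := by
  have hbase := isExcitedWalk_base ζ
  have hlaw := h.fdd.law_unique h.measurable_env hbase.measurable_env h.measurable_walk
    hbase.measurable_walk hbase.fdd
  set S : Set (ℕ → ℤ) := {y | Tendsto (fun n : ℕ => (y n : ℝ) / n) atTop (nhds 0)} with hS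
  have hSm : MeasurableSet S := by
    apply measurableSet_tendsto
    intro n
    have : Measurable (fun m : ℤ => (m : ℝ) / n) := measurable_of_countable _
    exact this.comp (measurable_pi_apply n)
  have h1 : ∀ᵐ p ∂(base ζ), (fun n => walk (arrow p.1 p.2) n) ∈ S := hζ.two_sided
  have hΨ' : Measurable (fun (p : (ℤ → ℤ) × (ℤ × ℕ → Bool)) (n : ℕ) => walk (arrow p.1 p.2) n) :=
    measurable_pi_lambda _ measurable_walk
  have hΨ : Measurable (fun a n => X n a) := measurable_pi_lambda _ h.measurable_walk
  have h2 : ∀ᵐ y ∂((base ζ).map (fun p n => walk (arrow p.1 p.2) n)), y ∈ S :=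
    (ae_map_iff hΨ'.aemeasurable hSm).2 h1
  rw [← hlaw] at h2
  exact (ae_map_iff hΨ.aemeasurable hSm).1 h2

end Pool.Agent.Work.MP_204ba2_pr
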