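import Mathlib
import Pool.Agent.Work.MP_204ba2_pr.Reference

/-!
The laws of the stack types.
-/

namespace Pool.Agent.Work.MP_204ba2_pr

open MeasureTheory ProbabilityTheory Filter
open scoped ENNReal

/-- law of the stack type: `16^m` with probability `a m`, `-16^m` with probability `b m`,
`M` with (additional) probability `q` and `0` with probability `r`. -/
noncomputable def zeta (a b : ℕ → ℝ≥0∞) (q r : ℝ≥0∞) (M : ℕ) : Measure ℤ :=
  Measure.sum (fun m => a m • Measure.dirac ((16 : ℤ) ^ m)) +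
    Measure.sum (fun m => b m • Measure.dirac (-(16 : ℤ) ^ m)) +
    q • Measure.dirac (M : ℤ) + r • Measure.dirac 0

theorem lintegral_zeta (a b : ℕ → ℝ≥0∞) (q r : ℝ≥0∞) (M : ℕ) (f : ℤ → ℝ≥0∞) :
    ∫⁻ z, f z ∂(zeta a b q r M) =
      ∑' m, a m * f ((16 : ℤ) ^ m) + ∑' m, b m * f (-(16 : ℤ) ^ m) + q * f M + r * f 0 := by
  unfold zeta
  rw [lintegral_add_measure, lintegral_add_measure, lintegral_add_measure, lintegral_sum_measure,
    lintegral_sum_measure, lintegral_smul_measure, lintegral_smul_measure, lintegral_dirac,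
    lintegral_dirac]
  simp only [lintegral_smul_measure, lintegral_dirac, smul_eq_mul]

theorem zeta_apply (a b : ℕ → ℝ≥0∞) (q r : ℝ≥0∞) (M : ℕ) (S : Set ℤ) :
    zeta a b q r M S =
      ∑' m, a m * S.indicator 1 ((16 : ℤ) ^ m) + ∑' m, b m * S.indicator 1 (-(16 : ℤ) ^ m) +
        q * S.indicator 1 (M : ℤ) + r * S.indicator 1 0 := by
  rw [← lintegral_zeta, lintegral_indicator_one (by trivial)]

theorem isProbabilityMeasure_zeta {a b : ℕ → ℝ≥0∞} {q r : ℝ≥0∞} {M : ℕ}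
    (h : ∑' m, a m + ∑' m, b m + q + r = 1) : IsProbabilityMeasure (zeta a b q r M) := by
  constructor
  rw [zeta_apply]
  simpa using h

theorem tsum_tail (s : ℕ) (hs : 0 < s) :
    ∑' m : ℕ, ENNReal.ofReal ((1 / 16) ^ m) * (if (s : ℤ) ≤ 16 ^ m then 1 else 0) ≤
      ENNReal.ofReal (16 / 15 / s) := by
  classical
  have hs' : (0:ℝ) < s := by exact_mod_cast hs
  obtain ⟨m0, hm0⟩ : ∃ m : ℕ, s ≤ 16 ^ m := ⟨s, (Nat.lt_pow_self (by norm_num)).le⟩
  set k := Nat.find (⟨m0, hm0⟩ : ∃ m : ℕ, s ≤ 16 ^ m) with hk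
  have hk1 : s ≤ 16 ^ k := Nat.find_spec (⟨m0, hm0⟩ : ∃ m : ℕ, s ≤ 16 ^ m)
  have hk2 : ∀ m < k, ¬ s ≤ 16 ^ m := fun m hm =>
    Nat.find_min (⟨m0, hm0⟩ : ∃ m : ℕ, s ≤ 16 ^ m) hm
  rw [← ENNReal.summable.sum_add_tsum_nat_add' (k := k)]
  have h1 : ∑ i ∈ Finset.range k,
      ENNReal.ofReal ((1 / 16) ^ i) * (if (s : ℤ) ≤ 16 ^ i then (1 : ℝ≥0∞) else 0) = 0 := by
    apply Finset.sum_eq_zero
    intro i hi
    have h2 := hk2 i (Finset.mem_range.1 hi)
    have h3 : ¬ ((s : ℤ) ≤ 16 ^ i) := fun h => h2 (by exact_mod_cast h)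
    rw [if_neg h3, mul_zero]
  rw [h1, zero_add]
  calc ∑' i : ℕ, ENNReal.ofReal ((1 / 16) ^ (i + k)) * (if (s : ℤ) ≤ 16 ^ (i + k) then 1 else 0)
      ≤ ∑' i : ℕ, ENNReal.ofReal ((1 / 16) ^ k * (1 / 16) ^ i) := by
        apply ENNReal.tsum_le_tsum
        intro i
        rw [pow_add, mul_comm ((1 / 16 : ℝ) ^ i)]
        split_ifs
        · rw [mul_one]
        · rw [mul_zero]; exact zero_le
    _ = ENNReal.ofReal ((1 / 16) ^ k * (16 / 15)) := by
        rw [← ENNReal.ofReal_tsum_of_nonneg (fun i => by positivity)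
          ((summable_geometric_of_lt_one (by norm_num) (by norm_num)).mul_left _), tsum_mul_left,
          tsum_geometric_of_lt_one (by norm_num) (by norm_num)]
        norm_num
    _ ≤ ENNReal.ofReal (16 / 15 / s) := by
        apply ENNReal.ofReal_le_ofReal
        have h4 : (s : ℝ) ≤ 16 ^ k := by exact_mod_cast hk1
        rw [one_div_pow, one_div_mul_eq_div]
        exact div_le_div_of_nonneg_left (by norm_num) hs' h4

theorem heavy_zeta {a b : ℕ → ℝ≥0∞} {q r : ℝ≥0∞} {M : ℕ} {c : ℝ} (hc : 0 < c)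
    (ha : ∀ m, ENNReal.ofReal (c * (1 / 20) ^ m) ≤ a m)
    (hb : ∀ m, ENNReal.ofReal (c * (1 / 20) ^ m) ≤ b m)
    (ha' : ∀ m, a m ≤ ENNReal.ofReal ((1 / 16) ^ m))
    (hb' : ∀ m, b m ≤ ENNReal.ofReal ((1 / 16) ^ m)) (hq : q ≤ 1) :
    Heavy (zeta a b q r M) := by
  refine ⟨⟨c, hc, fun m => ?_⟩, ⟨c, hc, fun m => ?_⟩, ?_⟩
  · rw [zeta_apply]
    calc ENNReal.ofReal (c * (1 / 20) ^ m) ≤ b m := hb m
      _ = b m * ({-(16 : ℤ) ^ m} : Set ℤ).indicator 1 (-(16 : ℤ) ^ m) := by simp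
      _ ≤ ∑' m', b m' * ({-(16 : ℤ) ^ m} : Set ℤ).indicator 1 (-(16 : ℤ) ^ m') :=
        ENNReal.le_tsum (f := fun m' => b m' * ({-(16 : ℤ) ^ m} : Set ℤ).indicator 1 (-(16 : ℤ) ^ m')) m
      _ ≤ _ := by
        rw [add_assoc, add_assoc]
        exact le_add_left (le_add_right le_rfl)
  · rw [zeta_apply]
    calc ENNReal.ofReal (c * (1 / 20) ^ m) ≤ a m := ha m
      _ = a m * ({(16 : ℤ) ^ m} : Set ℤ).indicator 1 ((16 : ℤ) ^ m) := by simp
      _ ≤ ∑' m', a m' * ({(16 : ℤ) ^ m} : Set ℤ).indicator 1 ((16 : ℤ) ^ m') :=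
        ENNReal.le_tsum (f := fun m' => a m' * ({(16 : ℤ) ^ m} : Set ℤ).indicator 1 ((16 : ℤ) ^ m')) m
      _ ≤ _ := by
        rw [add_assoc, add_assoc]
        exact le_add_right le_rfl
  · refine ⟨32 / 15 + M, by positivity, fun s hs => ?_⟩
    have hs' : (0:ℝ) < s := by exact_mod_cast hs
    rw [zeta_apply]
    have e1 : ∀ (w : ℕ → ℝ≥0∞) (σ : ℤ), (σ = 1 ∨ σ = -1) →
        (∀ m, w m ≤ ENNReal.ofReal ((1 / 16) ^ m)) →
        ∑' m, w m * ({z : ℤ | (s : ℤ) ≤ |z|}).indicator 1 (σ * (16 : ℤ) ^ m) ≤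
          ENNReal.ofReal (16 / 15 / s) := by
      intro w σ hσ hw
      refine le_trans (ENNReal.tsum_le_tsum fun m => ?_) (tsum_tail s hs)
      apply mul_le_mul' (hw m)
      have : |σ * (16 : ℤ) ^ m| = 16 ^ m := by
        rcases hσ with rfl | rfl <;> simp [abs_pow]
      by_cases h : (s : ℤ) ≤ 16 ^ m
      · rw [if_pos h]
        exact Set.indicator_le_self' (by simp) _ |>.trans (by simp)
      · rw [if_neg h, Set.indicator_of_notMem]
        rw [Set.mem_ofPred_eq, this]; exact h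
    have e2 := e1 a 1 (Or.inl rfl) ha'
    have e3 := e1 b (-1) (Or.inr rfl) hb'
    simp only [one_mul, neg_one_mul] at e2 e3
    have e4 : q * ({z : ℤ | (s : ℤ) ≤ |z|}).indicator 1 (M : ℤ) ≤ ENNReal.ofReal (M / s) := by
      by_cases h : s ≤ M
      · have h1 : (1 : ℝ) ≤ M / s := by
          rw [le_div_iff₀ hs', one_mul]; exact_mod_cast h
        calc q * ({z : ℤ | (s : ℤ) ≤ |z|}).indicator 1 (M : ℤ) ≤ 1 * 1 := by
              apply mul_le_mul' hq
              exact Set.indicator_le_self' (by simp) _ |>.trans (by simp)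
          _ = ENNReal.ofReal 1 := by simp
          _ ≤ _ := ENNReal.ofReal_le_ofReal h1
      · rw [Set.indicator_of_notMem, mul_zero]
        · exact zero_le
        · rw [Set.mem_ofPred_eq, Nat.abs_cast]
          exact_mod_cast h
    have e5 : r * ({z : ℤ | (s : ℤ) ≤ |z|}).indicator 1 (0 : ℤ) = 0 := by
      rw [Set.indicator_of_notMem, mul_zero]
      rw [Set.mem_ofPred_eq, abs_zero]
      omega
    rw [e5, add_zero]
    calc _ ≤ ENNReal.ofReal (16 / 15 / s) + ENNReal.ofReal (16 / 15 / s) + ENNReal.ofReal (M / s) :=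
          add_le_add (add_le_add e2 e3) e4
      _ = ENNReal.ofReal ((32 / 15 + M) / s) := by
          rw [← ENNReal.ofReal_add (by positivity) (by positivity),
            ← ENNReal.ofReal_add (by positivity) (by positivity)]
          congr 1
          ring

theorem posDrift_zeta (a b : ℕ → ℝ≥0∞) (q r : ℝ≥0∞) (M : ℕ)
    [IsProbabilityMeasure (zeta a b q r M)] :
    posDrift (envLaw (zeta a b q r M)) = ∑' m, a m * 16 ^ m + q * M := by
  rw [posDrift_envLaw, lintegral_zeta]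
  have h1 : ∀ m : ℕ, (((16 : ℤ) ^ m).toNat : ℝ≥0∞) = 16 ^ m := by
    intro m
    have : ((16 : ℤ) ^ m).toNat = 16 ^ m := by
      have : (16 : ℤ) ^ m = ((16 ^ m : ℕ) : ℤ) := by push_cast; ring
      rw [this, Int.toNat_natCast]
    rw [this]; push_cast; ring
  have h2 : ∀ m : ℕ, ((-(16 : ℤ) ^ m).toNat : ℝ≥0∞) = 0 := by
    intro m
    have : (-(16 : ℤ) ^ m).toNat = 0 := by
      rw [Int.toNat_eq_zero]
      have : (0 : ℤ) < 16 ^ m := by positivity
      omega
    rw [this]; simp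
  simp [h1, h2]

theorem negDrift_zeta (a b : ℕ → ℝ≥0∞) (q r : ℝ≥0∞) (M : ℕ)
    [IsProbabilityMeasure (zeta a b q r M)] :
    negDrift (envLaw (zeta a b q r M)) = ∑' m, b m * 16 ^ m := by
  rw [negDrift_envLaw, lintegral_zeta]
  have h1 : ∀ m : ℕ, (((16 : ℤ) ^ m).toNat : ℝ≥0∞) = 16 ^ m := by
    intro m
    have : ((16 : ℤ) ^ m).toNat = 16 ^ m := by
      have : (16 : ℤ) ^ m = ((16 ^ m : ℕ) : ℤ) := by push_cast; ring
      rw [this, Int.toNat_natCast]
    rw [this]; push_cast; ring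
  have h2 : ∀ m : ℕ, ((-(16 : ℤ) ^ m).toNat : ℝ≥0∞) = 0 := by
    intro m
    have : (-(16 : ℤ) ^ m).toNat = 0 := by
      rw [Int.toNat_eq_zero]
      have : (0 : ℤ) < 16 ^ m := by positivity
      omega
    rw [this]; simp
  have h3 : (-(M : ℤ)).toNat = 0 := by rw [Int.toNat_eq_zero]; omega
  simp [h1, h2, h3]

theorem tsum_w20 : ∑' m : ℕ, ENNReal.ofReal (19 / 80 * (1 / 20) ^ m) = ENNReal.ofReal (1 / 4) := by
  rw [← ENNReal.ofReal_tsum_of_nonneg (fun i => by positivity)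
    ((summable_geometric_of_lt_one (by norm_num) (by norm_num)).mul_left _), tsum_mul_left,
    tsum_geometric_of_lt_one (by norm_num) (by norm_num)]
  norm_num

theorem tsum_w16 : ∑' m : ℕ, ENNReal.ofReal (1 / 4 * (1 / 16) ^ m) = ENNReal.ofReal (4 / 15) := by
  rw [← ENNReal.ofReal_tsum_of_nonneg (fun i => by positivity)
    ((summable_geometric_of_lt_one (by norm_num) (by norm_num)).mul_left _), tsum_mul_left,
    tsum_geometric_of_lt_one (by norm_num) (by norm_num)]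
  norm_num

theorem ofReal_mul_pow16 (x : ℝ) (hx : 0 ≤ x) (m : ℕ) :
    ENNReal.ofReal x * 16 ^ m = ENNReal.ofReal (x * 16 ^ m) := by
  rw [ENNReal.ofReal_mul hx, ENNReal.ofReal_pow (by norm_num)]
  norm_num

theorem tsum_w20_drift :
    ∑' m : ℕ, ENNReal.ofReal (19 / 80 * (1 / 20) ^ m) * 16 ^ m = ENNReal.ofReal (19 / 16) := by
  have : ∀ m : ℕ, ENNReal.ofReal (19 / 80 * (1 / 20) ^ m) * 16 ^ m =
      ENNReal.ofReal (19 / 80 * (4 / 5) ^ m) := by
    intro m
    rw [ofReal_mul_pow16 _ (by positivity), mul_assoc, ← mul_pow]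
    norm_num
  simp_rw [this]
  rw [← ENNReal.ofReal_tsum_of_nonneg (fun i => by positivity)
    ((summable_geometric_of_lt_one (by norm_num) (by norm_num)).mul_left _), tsum_mul_left,
    tsum_geometric_of_lt_one (by norm_num) (by norm_num)]
  norm_num

theorem tsum_w16_drift :
    ∑' m : ℕ, ENNReal.ofReal (1 / 4 * (1 / 16) ^ m) * 16 ^ m = ∞ := by
  have : ∀ m : ℕ, ENNReal.ofReal (1 / 4 * (1 / 16) ^ m) * 16 ^ m = ENNReal.ofReal (1 / 4) := by
    intro m
    rw [ofReal_mul_pow16 _ (by positivity), mul_assoc, ← mul_pow]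
    norm_num
  simp_rw [this]
  exact ENNReal.tsum_const_eq_top_of_ne_zero (by norm_num)

/-- For every `δ ∈ [0,∞]` there is a heavy law of the stack type with the prescribed drift. -/
theorem exists_heavy (δ : ℝ≥0∞) : ∃ ζ : Measure ℤ, ∃ _ : IsProbabilityMeasure ζ,
    Heavy ζ ∧ 0 < ζ {0} ∧ negDrift (envLaw ζ) < ∞ ∧
      posDrift (envLaw ζ) = δ + negDrift (envLaw ζ) := by
  have hlow : ∀ m : ℕ, ENNReal.ofReal (19 / 80 * (1 / 20) ^ m) ≤ ENNReal.ofReal ((1 / 16) ^ m) := by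
    intro m
    apply ENNReal.ofReal_le_ofReal
    have h1 : (1 / 20 : ℝ) ^ m ≤ (1 / 16) ^ m := pow_le_pow_left₀ (by norm_num) (by norm_num) m
    have h2 : (0 : ℝ) ≤ (1 / 20) ^ m := by positivity
    linarith
  by_cases hδ : δ = ∞
  · have hsum : ∑' m : ℕ, ENNReal.ofReal (1 / 4 * (1 / 16) ^ m) +
        ∑' m : ℕ, ENNReal.ofReal (19 / 80 * (1 / 20) ^ m) + 0 + ENNReal.ofReal (29 / 60) = 1 := by
      rw [tsum_w16, tsum_w20, add_zero, ← ENNReal.ofReal_add (by norm_num) (by norm_num),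
        ← ENNReal.ofReal_add (by norm_num) (by norm_num)]
      norm_num
    have hprob := isProbabilityMeasure_zeta (M := 0) hsum
    refine ⟨_, hprob, ?_, ?_, ?_, ?_⟩
    · apply heavy_zeta (c := 19 / 80) (by norm_num)
      · intro m
        apply ENNReal.ofReal_le_ofReal
        have h1 : (1 / 20 : ℝ) ^ m ≤ (1 / 16) ^ m := pow_le_pow_left₀ (by norm_num) (by norm_num) m
        have h2 : (0 : ℝ) ≤ (1 / 20) ^ m := by positivity
        linarith
      · exact fun m => le_rfl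
      · intro m
        apply ENNReal.ofReal_le_ofReal
        have h2 : (0 : ℝ) ≤ (1 / 16) ^ m := by positivity
        linarith
      · exact hlow
      · simp
    · rw [zeta_apply]
      refine lt_of_lt_of_le ?_ (le_add_left le_rfl)
      simp
    · rw [negDrift_zeta, tsum_w20_drift]
      exact ENNReal.ofReal_lt_top
    · rw [posDrift_zeta, tsum_w16_drift, hδ]
      simp
  · obtain ⟨d, rfl⟩ : ∃ d : NNReal, δ = d := ⟨δ.toNNReal, (ENNReal.coe_toNNReal hδ).symm⟩
    set M : ℕ := ⌈4 * (d : ℝ)⌉₊ + 1 with hM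
    have hM1 : 4 * (d : ℝ) ≤ M := by
      rw [hM]; push_cast
      have := Nat.le_ceil (4 * (d : ℝ))
      linarith
    have hM0 : (0 : ℝ) < M := by rw [hM]; positivity
    have hd0 : (0 : ℝ) ≤ d := d.2
    have hq : (d : ℝ) / M ≤ 1 / 4 := by
      rw [div_le_iff₀ hM0]; linarith
    have hq0 : 0 ≤ (d : ℝ) / M := by positivity
    have hsum : ∑' m : ℕ, ENNReal.ofReal (19 / 80 * (1 / 20) ^ m) +
        ∑' m : ℕ, ENNReal.ofReal (19 / 80 * (1 / 20) ^ m) + ENNReal.ofReal (d / M) +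
          ENNReal.ofReal (1 / 2 - d / M) = 1 := by
      rw [tsum_w20, ← ENNReal.ofReal_add (by norm_num) (by norm_num),
        ← ENNReal.ofReal_add (by norm_num) hq0,
        ← ENNReal.ofReal_add (by positivity) (by linarith)]
      norm_num
    have hprob := isProbabilityMeasure_zeta (M := M) hsum
    refine ⟨_, hprob, ?_, ?_, ?_, ?_⟩
    · apply heavy_zeta (c := 19 / 80) (by norm_num)
      · exact fun m => le_rfl
      · exact fun m => le_rfl
      · exact hlow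
      · exact hlow
      · rw [← ENNReal.ofReal_one]
        exact ENNReal.ofReal_le_ofReal (by linarith)
    · rw [zeta_apply]
      refine lt_of_lt_of_le ?_ (le_add_left le_rfl)
      simp only [Set.indicator, Set.mem_singleton_iff, if_true, Pi.one_apply, mul_one,
        ENNReal.ofReal_pos]
      linarith
    · rw [negDrift_zeta, tsum_w20_drift]
      exact ENNReal.ofReal_lt_top
    · rw [posDrift_zeta, negDrift_zeta, add_comm]
      congr 1
      rw [← ENNReal.ofReal_natCast M, ← ENNReal.ofReal_mul hq0, div_mul_cancel₀ _ hM0.ne',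
        ENNReal.ofReal_coe_nnreal]

end Pool.Agent.Work.MP_204ba2_pr
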